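import Pool.Agent.H89.GB.Triv
import Pool.Agent.H89.KT.Base

/-!
# The base case, and prime power exponents
-/

set_option autoImplicit false
set_option linter.all false

open Polynomial IsDedekindDomain WithZero
open scoped Classical

namespace Pool.Agent.H89.GB

open Pool.Agent.H89.KT (IsKum irr_cop inertia_prime kum_up gal_comp norm_gal root_of pw_hom pw_down
  pw_inert ram_of cyc ideal_pw pw_root)
open Pool.Agent.Y160.SE (IsPw)
open Pool.Agent.Q45.TT (inertia_le exists_above tf_of inert_of val_under)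

/-- An element of `O[x] / (f)` whose ideal is a `p`-th power and whose norm is a `p`-th power is a
`p`-th power. -/
def RelTriv (p : ℕ) {O : Type} [CommRing O] (f : O[X]) : Prop :=
  ∀ (I : Ideal (AdjoinRoot f)) (a : AdjoinRoot f) (c : O), a ≠ 0 → I ^ p = Ideal.span {a} →
    Algebra.norm O a = c ^ p → ∃ b : AdjoinRoot f, a = b ^ p

section base

variable {O : Type} [CommRing O] [IsDedekindDomain O] {f : O[X]} {p : ℕ}

/-- The ring `O[x] / (f)` is the integral closure of `O`. -/
theorem exists_emb (hf : Pol p f) [IsDedekindDomain (AdjoinRoot f)] {K : Type} [Field K]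
    [Algebra O K] (hK : IsFractionRing O K) {L : Type} [Field L] [Algebra O L]
    [Algebra K L] [IsScalarTower O K L] {θ : L} (hθ : aeval θ (fK f K) = 0)
    (htop : IntermediateField.adjoin K {θ} = ⊤) :
    ∃ φ : AdjoinRoot f →+* L, (∀ a, φ (AdjoinRoot.of f a) = algebraMap O L a) ∧
      ∀ (R : Type) [CommRing R] [IsDedekindDomain R] [Algebra O R] [Algebra R L]
        [IsScalarTower O R L] [IsFractionRing R L] [IsIntegralClosure R O L],
      (letI := φ.toAlgebra; IsFractionRing (AdjoinRoot f) L) ∧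
      ∃ e : R ≃+* AdjoinRoot f, ∀ r, φ (e r) = algebraMap R L r := by
  have hirr : Irreducible (fK f K) := hf.irr_base hK
  have hθ2 : eval₂ (algebraMap O L) θ f = 0 := by
    have h3 := hθ
    unfold fK at h3
    rwa [aeval_map_algebraMap, aeval_def] at h3
  set φ : AdjoinRoot f →+* L := AdjoinRoot.lift (algebraMap O L) θ hθ2 with hφ
  have hφof : ∀ a, φ (AdjoinRoot.of f a) = algebraMap O L a := fun a => AdjoinRoot.lift_of hθ2
  have hφr : φ (AdjoinRoot.root f) = θ := AdjoinRoot.lift_root hθ2
  refine ⟨φ, hφof, ?_⟩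
  intro R _ _ _ _ _ _ _
  letI iA : Algebra (AdjoinRoot f) L := φ.toAlgebra
  haveI : IsScalarTower O (AdjoinRoot f) L := IsScalarTower.of_algebraMap_eq fun a => by
    show algebraMap O L a = φ (algebraMap O (AdjoinRoot f) a)
    rw [← hφof]
    rfl
  have hinjK : Function.Injective (algebraMap O K) := IsFractionRing.injective O K
  have hinjL : Function.Injective (algebraMap O L) := by
    rw [IsScalarTower.algebraMap_eq O K L]
    exact (algebraMap K L).injective.comp hinjK
  haveI hfin : Module.Finite O (AdjoinRoot f) := hf.monic.finite_adjoinRoot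
  haveI : Algebra.IsIntegral O (AdjoinRoot f) := Algebra.IsIntegral.of_finite _ _
  -- injectivity
  have hmin : minpoly K θ = fK f K :=
    (minpoly.eq_of_irreducible_of_monic hirr hθ (fK_monic hf K)).symm
  have hφinj : Function.Injective φ := by
    rw [injective_iff_map_eq_zero]
    intro a ha
    obtain ⟨q, rfl⟩ := AdjoinRoot.mk_surjective a
    have h1 : φ (AdjoinRoot.mk f q) = eval₂ (algebraMap O L) θ q := AdjoinRoot.lift_mk hθ2 q
    rw [h1] at ha
    have h3 : aeval θ (q.map (algebraMap O K)) = 0 := by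
      rwa [aeval_map_algebraMap, aeval_def]
    have h4 : fK f K ∣ q.map (algebraMap O K) := by
      rw [← hmin]
      exact minpoly.dvd K θ h3
    rw [AdjoinRoot.mk_eq_zero]
    exact (Polynomial.map_dvd_map _ hinjK hf.monic).1 h4
  haveI : FaithfulSMul (AdjoinRoot f) L := (faithfulSMul_iff_algebraMap_injective _ _).2 hφinj
  haveI : FiniteDimensional K L := Pool.Agent.Q45.TW.fin_of (fK_monic hf K) hθ htop
  haveI : Algebra.IsAlgebraic K L := inferInstance
  -- the field of fractions
  have hfrac : IsFractionRing (AdjoinRoot f) L := by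
    refine IsFractionRing.of_field (AdjoinRoot f) L ?_
    intro z
    have hz : z ∈ IntermediateField.adjoin K {θ} := by
      rw [htop]
      exact IntermediateField.mem_top
    have hz2 : z ∈ Algebra.adjoin K {θ} := by
      rw [← IntermediateField.adjoin_simple_toSubalgebra_of_isAlgebraic
        (Algebra.IsAlgebraic.isAlgebraic θ)]
      exact hz
    obtain ⟨P, rfl⟩ := Algebra.adjoin_mem_exists_aeval K θ hz2
    obtain ⟨b, hb, hbP⟩ := IsLocalization.integerNormalization_spec (nonZeroDivisors O) P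
    set q := IsLocalization.integerNormalization (nonZeroDivisors O) P with hq
    have h1 : φ (AdjoinRoot.mk f q) = eval₂ (algebraMap O L) θ q := AdjoinRoot.lift_mk hθ2 q
    have h3 : aeval θ (q.map (algebraMap O K)) = φ (AdjoinRoot.mk f q) := by
      rw [h1, aeval_map_algebraMap, aeval_def]
    rw [hbP] at h3
    have hb0 : algebraMap O L b ≠ 0 := by
      intro h
      exact nonZeroDivisors.ne_zero hb (hinjL (by rw [h, map_zero]))
    refine ⟨AdjoinRoot.mk f q, AdjoinRoot.of f b, ?_⟩
    show aeval θ P = φ (AdjoinRoot.mk f q) / φ (AdjoinRoot.of f b)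
    rw [hφof, eq_div_iff hb0, ← h3, Algebra.smul_def b P, map_mul]
    have h5 : aeval θ (algebraMap O K[X] b) = algebraMap O L b := by
      rw [IsScalarTower.algebraMap_apply O K K[X], ← C_eq_algebraMap, aeval_C,
        ← IsScalarTower.algebraMap_apply]
    rw [h5, mul_comm]
  haveI := hfrac
  refine ⟨hfrac, ?_⟩
  haveI : IsIntegralClosure (AdjoinRoot f) O L :=
    IsIntegralClosure.of_isIntegrallyClosed (AdjoinRoot f) O L
  refine ⟨(IsIntegralClosure.equiv O R L (AdjoinRoot f)).toRingEquiv, fun r => ?_⟩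
  exact IsIntegralClosure.algebraMap_equiv O R L (AdjoinRoot f) r

/-- The base case. -/
theorem Triv.base (hp : p.Prime) (hf : Pol p f) [IsDedekindDomain (AdjoinRoot f)]
    (hrel : RelTriv p f) {K : Type} [Field K] [Algebra O K]
    (hK : IsFractionRing O K) : Triv p f K := by
  intro L _ _ _ _ θ hθ htop R _ _ _ _ _ _ _ z hz hev hno
  have hirr : Irreducible (fK f K) := hf.irr_base hK
  haveI : FiniteDimensional K L := Pool.Agent.Q45.TW.fin_of (fK_monic hf K) hθ htop
  obtain ⟨φ, hφ1, hφ2⟩ := exists_emb hf hK hθ htop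
  obtain ⟨hfr, e, he⟩ := hφ2 R
  letI iA : Algebra (AdjoinRoot f) L := φ.toAlgebra
  haveI : IsFractionRing (AdjoinRoot f) L := hfr
  haveI : IsScalarTower O (AdjoinRoot f) L := IsScalarTower.of_algebraMap_eq fun a => (hφ1 a).symm
  haveI hfin : Module.Finite O (AdjoinRoot f) := hf.monic.finite_adjoinRoot
  haveI hfree : Module.Free O (AdjoinRoot f) := hf.monic.free_adjoinRoot
  haveI : Algebra.IsIntegral O (AdjoinRoot f) := Algebra.IsIntegral.of_finite _ _
  haveI : IsIntegralClosure (AdjoinRoot f) O L :=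
    IsIntegralClosure.of_isIntegrallyClosed (AdjoinRoot f) O L
  haveI : Module.IsTorsionFree O (AdjoinRoot f) := inferInstance
  have hev' : ∀ v : HeightOneSpectrum (AdjoinRoot f), IsPw p (v.valuation L z) := fun v => by
    have h1 := pw_hom (R := R) (L := L) (R' := AdjoinRoot f) (L' := L) e (RingEquiv.refl L)
      (fun r => (he r).symm) hev v
    exact h1
  obtain ⟨a, b, hb, rfl⟩ := IsFractionRing.div_surjective (A := AdjoinRoot f) z
  have hb0 : b ≠ 0 := nonZeroDivisors.ne_zero hb
  have ha0 : a ≠ 0 := by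
    rintro rfl
    rw [map_zero, zero_div] at hz
    exact hz rfl
  have hbL : algebraMap (AdjoinRoot f) L b ≠ 0 := fun h =>
    hb0 (IsFractionRing.injective (AdjoinRoot f) L (by rw [h, map_zero]))
  obtain ⟨q, hq⟩ : ∃ q, p = q + 1 := Nat.exists_eq_succ_of_ne_zero hp.ne_zero
  have he2 : algebraMap (AdjoinRoot f) L (a * b ^ q) = algebraMap (AdjoinRoot f) L a /
      algebraMap (AdjoinRoot f) L b * algebraMap (AdjoinRoot f) L b ^ p := by
    rw [map_mul, map_pow, hq, pow_succ]
    field_simp
  have hab : a * b ^ q ≠ 0 := mul_ne_zero ha0 (pow_ne_zero _ hb0)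
  obtain ⟨J, hJ⟩ := ideal_pw hp.ne_zero hab fun v => by
    have h1 : v.valuation L (algebraMap (AdjoinRoot f) L (a * b ^ q)) =
      v.intValuation (a * b ^ q) := v.valuation_of_algebraMap _
    rw [← h1, he2, map_mul, map_pow]
    exact (hev' v).mul (IsPw.self _)
  -- the norm
  have hnorm : ∀ x : AdjoinRoot f, algebraMap O K (Algebra.norm O x) =
      Algebra.norm K (algebraMap (AdjoinRoot f) L x) := by
    intro x
    rw [← Algebra.intNorm_eq_norm, Algebra.algebraMap_intNorm (A := O) (K := K) (L := L)]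
  obtain ⟨u, hu⟩ := hno
  have hc : IsIntegral O (u * Algebra.norm K (algebraMap (AdjoinRoot f) L b)) := by
    refine IsIntegral.of_pow (n := p) hp.pos ?_
    rw [mul_pow, ← hu, ← map_pow, ← map_mul, ← he2, ← hnorm]
    exact isIntegral_algebraMap
  obtain ⟨c, hc⟩ := (IsIntegrallyClosed.isIntegral_iff (R := O) (K := K)).1 hc
  have hc2 : Algebra.norm O (a * b ^ q) = c ^ p := by
    apply IsFractionRing.injective O K
    rw [hnorm, he2, map_mul, hu, map_pow, ← mul_pow, map_pow, hc]
  obtain ⟨r, hr⟩ := hrel J _ c hab hJ.symm hc2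
  refine ⟨algebraMap (AdjoinRoot f) L r / algebraMap (AdjoinRoot f) L b, ?_⟩
  rw [div_pow, ← map_pow, ← hr, he2, mul_div_cancel_right₀ _ (pow_ne_zero _ hbL)]

/-- **Elements with valuations divisible by `p` and a norm which is a `p`-th power are `p`-th
powers.** -/
theorem IsTower.triv (H : Base p O) (hf : Pol p f)
    (hb : ∀ (K : Type) [Field K] [Algebra O K], IsFractionRing O K → Triv p f K)
    {K : Type} [Field K] [Algebra O K] {m : ℕ} {s : ℕ → K}
    (h : IsTower p O K m s) (hram : RamK f K) : Triv p f K := by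
  refine IsTower.ind H (M := fun K _ _ => RamK f K → Triv p f K)
    (fun K _ _ hK _ => hb K hK) ?_ m K s h hram
  intro K' K _ _ _ _ _ _ D s hq _ htw ih hram
  obtain ⟨m', s', htw⟩ := htw
  have hfs' : FS O K' := htw.fs H
  exact Triv.step H hf hq htw hram (ih (hram.down hfs' (hfs'.trans hq.fin hq.separable)))

/-- Prime power exponents. -/
theorem Triv.pow (hp : p.Prime) {K : Type} [Field K] [Algebra O K] (h : Triv p f K)
    (hf : Pol p f) (hirr : Irreducible (fK f K)) :
    ∀ (m : ℕ) (ζ : K), IsPrimitiveRoot ζ (p ^ m) → Triv (p ^ m) f K := by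
  intro m
  induction m with
  | zero =>
    intro ζ hζ L _ _ _ _ θ hθ htop R _ _ _ _ _ _ _ z hz hev hno
    exact ⟨z, by rw [pow_zero, pow_one]⟩
  | succ m ih =>
    intro ζ hζ L _ _ _ _ θ hθ htop R _ _ _ _ _ _ _ z hz hev hno
    haveI : FiniteDimensional K L := Pool.Agent.Q45.TW.fin_of (fK_monic hf K) hθ htop
    obtain ⟨u, hu⟩ := hno
    have hpp : p ^ (m + 1) = p * p ^ m := pow_succ' p m
    obtain ⟨w, hw⟩ := h L θ hθ htop R z hz (fun v => by
      obtain ⟨δ, hδ⟩ := hev v
      exact ⟨δ ^ p ^ m, by rw [hδ, ← pow_mul, mul_comm, ← hpp]⟩) ⟨u ^ p ^ m, by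
        rw [hu, ← pow_mul, mul_comm, ← hpp]⟩
    have hw0 : w ≠ 0 := by
      rintro rfl
      rw [zero_pow hp.ne_zero] at hw
      exact hz hw
    have hu0 : u ≠ 0 := by
      rintro rfl
      rw [zero_pow (pow_ne_zero _ hp.ne_zero)] at hu
      exact (Algebra.norm_ne_zero_iff).2 hz hu
    have hζp : IsPrimitiveRoot (ζ ^ p ^ m) p :=
      hζ.pow (pow_pos hp.pos _) (by rw [pow_succ])
    have h1 : (Algebra.norm K w) ^ p = (u ^ p ^ m) ^ p := by
      rw [← map_pow, ← hw, hu, ← pow_mul, pow_succ]
    obtain ⟨i, hi⟩ := root_of hp hζp (pow_ne_zero _ hu0) h1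
    obtain ⟨c, hc⟩ := ih (ζ ^ p) (hζ.pow (pow_pos hp.pos _) (by rw [hpp])) L θ hθ htop R w hw0
      (fun v => by
        refine pw_root hp.ne_zero ?_
        rw [← map_pow, ← hw]
        exact hev v) ⟨ζ ^ i * u, by rw [hi]; ring⟩
    exact ⟨c, by rw [hw, hc, ← pow_mul, mul_comm, ← hpp]⟩

end base

end Pool.Agent.H89.GB
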