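import Pool.Agent.H89.GB.Reg

/-!
# Descent of the regularity in unramified extensions
-/

set_option autoImplicit false
set_option linter.all false

open Polynomial IsDedekindDomain WithZero
open scoped Classical

namespace Pool.Agent.H89.GB

/-- Extensions whose degree is a power of `p` are separable if `p` is invertible. -/
theorem sep_of_card {F E : Type} [Field F] [Field E] [Algebra F E] [FiniteDimensional F E] {p j : ℕ}
    (hp : p.Prime) (hF : (p : F) ≠ 0) (hfr : Module.finrank F E = p ^ j) :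
    Algebra.IsSeparable F E := by
  refine ⟨fun x => ?_⟩
  have hint : IsIntegral F x := Algebra.IsIntegral.isIntegral x
  have hirr := minpoly.irreducible hint
  show (minpoly F x).Separable
  rw [separable_iff_derivative_ne_zero hirr]
  intro h0
  have h1 : (minpoly F x).natDegree ∣ p ^ j := by
    rw [← hfr, ← IntermediateField.adjoin.finrank hint]
    exact ⟨_, (Module.finrank_mul_finrank F (IntermediateField.adjoin F {x}) E).symm⟩
  obtain ⟨i, -, hi⟩ := (Nat.dvd_prime_pow hp).1 h1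
  have hpos := minpoly.natDegree_pos hint
  have h3 := congrArg (fun q => coeff q ((minpoly F x).natDegree - 1)) h0
  simp only [coeff_derivative, coeff_zero] at h3
  rw [Nat.sub_add_cancel hpos] at h3
  have h4 : (minpoly F x).coeff (minpoly F x).natDegree = 1 := (minpoly.monic hint).coeff_natDegree
  rw [h4, one_mul] at h3
  have h5 : ((minpoly F x).natDegree : F) = 0 := by
    have h6 : (((minpoly F x).natDegree - 1 : ℕ) : F) + 1 = ((minpoly F x).natDegree : F) := by
      exact_mod_cast congrArg (Nat.cast : ℕ → F) (Nat.sub_add_cancel hpos)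
    rw [← h6]
    exact h3
  rw [hi, Nat.cast_pow] at h5
  exact pow_ne_zero i hF h5

section desc

variable {O A : Type} [CommRing O] [IsDedekindDomain O] [CommRing A] [IsDedekindDomain A]
  [Algebra O A]

theorem exists_cofactor (P : HeightOneSpectrum O) {π : O} (hπ : π ∈ P.asIdeal)
    (hπ2 : π ∉ P.asIdeal ^ 2) : ∃ σ : O, σ ∉ P.asIdeal ∧ ∀ r ∈ P.asIdeal.map C, ∃ r' : O[X],
      C σ * r = C π * r' := by
  obtain ⟨I, hI⟩ : P.asIdeal ∣ Ideal.span {π} := by
    rw [Ideal.dvd_span_singleton]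
    exact hπ
  obtain ⟨σ, hσI, hσP⟩ : ∃ σ ∈ I, σ ∉ P.asIdeal := by
    by_contra hcon
    push Not at hcon
    apply hπ2
    have h1 : P.asIdeal ^ 2 ∣ Ideal.span {π} := by
      rw [hI, pow_two]
      exact mul_dvd_mul_left _ (Ideal.dvd_iff_le.2 hcon)
    rwa [Ideal.dvd_span_singleton] at h1
  refine ⟨σ, hσP, fun r hr => ?_⟩
  have h1 : C σ * r ∈ (Ideal.span {π}).map C := by
    rw [hI, mul_comm P.asIdeal I, Ideal.map_mul]
    exact Ideal.mul_mem_mul (Ideal.mem_map_of_mem C hσI) hr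
  rw [Ideal.map_span, Set.image_singleton] at h1
  obtain ⟨r', hr'⟩ := Ideal.mem_span_singleton.1 h1
  exact ⟨r', hr'⟩

/-- **Descent of the membership in the square of a maximal ideal.** -/
theorem desc (P : HeightOneSpectrum O) (v : HeightOneSpectrum A) [v.asIdeal.LiesOver P.asIdeal]
    [Module.Finite (O ⧸ P.asIdeal) (A ⧸ v.asIdeal)] {p j : ℕ} (hp : p.Prime) (hpO : IsUnit (p : O))
    (hfr : Module.finrank (O ⧸ P.asIdeal) (A ⧸ v.asIdeal) = p ^ j)
    (hunr : ∀ π ∈ P.asIdeal, π ∉ P.asIdeal ^ 2 → algebraMap O A π ∉ v.asIdeal ^ 2)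
    {f : O[X]} (hf : f.Monic) {a : A[X]} (ham : a.Monic)
    (ha : Irreducible (a.map (Ideal.Quotient.mk v.asIdeal)))
    (h : f.map (algebraMap O A) ∈ JJ v a ^ 2) :
    ∃ b : O[X], b.Monic ∧ Irreducible (b.map (Ideal.Quotient.mk P.asIdeal)) ∧ f ∈ JJ P b ^ 2 := by
  haveI := P.isMaximal
  haveI := v.isMaximal
  letI iP : Field (O ⧸ P.asIdeal) := Ideal.Quotient.field _
  letI iv : Field (A ⧸ v.asIdeal) := Ideal.Quotient.field _
  haveI : Algebra.IsSeparable (O ⧸ P.asIdeal) (A ⧸ v.asIdeal) := by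
    refine sep_of_card hp ?_ hfr
    have h1 := hpO.map (Ideal.Quotient.mk P.asIdeal)
    rw [map_natCast] at h1
    exact h1.ne_zero
  have hcomp : ∀ x : O[X], (x.map (algebraMap O A)).map (Ideal.Quotient.mk v.asIdeal) =
      (x.map (Ideal.Quotient.mk P.asIdeal)).map (algebraMap (O ⧸ P.asIdeal) (A ⧸ v.asIdeal)) := by
    intro x
    rw [Polynomial.map_map, Polynomial.map_map]
    congr 1
  set ρ := algebraMap (O ⧸ P.asIdeal) (A ⧸ v.asIdeal) with hρ
  set ā := a.map (Ideal.Quotient.mk v.asIdeal) with hā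
  have hfbar : f.map (Ideal.Quotient.mk P.asIdeal) ≠ 0 := (hf.map _).ne_zero
  -- `ā ^ 2` divides the reduction of `f`
  have ha2 : ā * ā ∣ (f.map (Ideal.Quotient.mk P.asIdeal)).map ρ := by
    obtain ⟨j, hj, ν, hν, hjν⟩ := dec v h
    have h1 : ν.map (Ideal.Quotient.mk v.asIdeal) = 0 := by
      refine Polynomial.ext fun n => ?_
      rw [coeff_map, coeff_zero]
      exact Ideal.Quotient.eq_zero_iff_mem.2 (Ideal.pow_le_self two_ne_zero
        (Ideal.mem_map_C_iff.1 hν n))
    have h3 := congrArg (Polynomial.map (Ideal.Quotient.mk v.asIdeal)) hjν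
    rw [hcomp, Polynomial.map_add, Polynomial.map_mul, h1, add_zero] at h3
    rw [h3]
    exact mul_dvd_mul_left _ ((mem_JJ v a j).1 hj)
  -- the ideal below
  obtain ⟨q, hq⟩ : ∃ q, q = (Ideal.span {ā}).comap (mapRingHom ρ) := ⟨_, rfl⟩
  have hqmem : ∀ x, x ∈ q ↔ ā ∣ x.map ρ := by
    intro x
    rw [hq, Ideal.mem_comap, Ideal.mem_span_singleton]
    rfl
  have hfq : f.map (Ideal.Quotient.mk P.asIdeal) ∈ q := by
    rw [hqmem]
    exact (dvd_mul_right _ _).trans ha2
  haveI hqp : q.IsPrime := by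
    rw [hq]
    haveI : (Ideal.span {ā}).IsPrime := (Ideal.span_singleton_prime ha.ne_zero).2 ha.prime
    exact Ideal.comap_isPrime _ _
  obtain ⟨b₀, hb₀⟩ := (IsPrincipalIdealRing.principal q).principal
  have hb₀' : q = Ideal.span {b₀} := hb₀
  have hb₀0 : b₀ ≠ 0 := by
    rintro rfl
    rw [hb₀', Ideal.mem_span_singleton, zero_dvd_iff] at hfq
    exact hfbar hfq
  have hb₀i : Irreducible b₀ := by
    have h1 : (Ideal.span {b₀}).IsPrime := by rw [← hb₀']; exact hqp
    exact ((Ideal.span_singleton_prime hb₀0).1 h1).irreducible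
  have hlc : b₀.leadingCoeff ≠ 0 := leadingCoeff_ne_zero.2 hb₀0
  have hu : IsUnit (C (b₀.leadingCoeff⁻¹) : (O ⧸ P.asIdeal)[X]) :=
    isUnit_C.2 (isUnit_iff_ne_zero.2 (inv_ne_zero hlc))
  have hb₁m : (b₀ * C b₀.leadingCoeff⁻¹).Monic := monic_mul_leadingCoeff_inv hb₀0
  have hb₁i : Irreducible (b₀ * C b₀.leadingCoeff⁻¹) := (irreducible_mul_isUnit hu).2 hb₀i
  have hb₁q : q = Ideal.span {b₀ * C b₀.leadingCoeff⁻¹} := by
    rw [hb₀', Ideal.span_singleton_mul_right_unit hu]
  have hlift : b₀ * C b₀.leadingCoeff⁻¹ ∈ lifts (Ideal.Quotient.mk P.asIdeal) := by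
    rw [mem_lifts]
    exact Polynomial.map_surjective _ Ideal.Quotient.mk_surjective _
  obtain ⟨b, hbmap, -, hbm⟩ := lifts_and_degree_eq_and_monic hlift hb₁m
  rw [← hbmap] at hb₁i hb₁q
  have hmem : ∀ x : O[X], x.map (algebraMap O A) ∈ JJ v a ↔ x ∈ JJ P b := by
    intro x
    rw [mem_JJ, mem_JJ, hcomp, ← Ideal.mem_span_singleton (y := b.map _), ← hb₁q, hqmem]
  refine ⟨b, hbm, hb₁i, ?_⟩
  set bb := b.map (Ideal.Quotient.mk P.asIdeal) with hbb
  -- `bb ^ 2` divides the reduction of `f`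
  obtain ⟨e, he⟩ : ∃ e : O[X], f.map (Ideal.Quotient.mk P.asIdeal) =
      bb * bb * e.map (Ideal.Quotient.mk P.asIdeal) := by
    have h1 := hfq
    rw [hb₁q, Ideal.mem_span_singleton] at h1
    obtain ⟨c, hc⟩ := h1
    have h3 : bb ∈ q := by
      rw [hb₁q]
      exact Ideal.mem_span_singleton_self _
    rw [hqmem] at h3
    obtain ⟨d, hd⟩ := h3
    have h4 : ¬ ā ∣ d := by
      rintro ⟨d', rfl⟩
      refine ha.not_isUnit (sqf_sep hb₁i (a := ā) ?_)
      exact ⟨d', by rw [← hρ, hd]; ring⟩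
    have h5 : ā * ā ∣ ā * (d * c.map ρ) := by
      have h6 := ha2
      rw [hc, Polynomial.map_mul, hd, mul_assoc] at h6
      exact h6
    have h6 := (mul_dvd_mul_iff_left ha.ne_zero).1 h5
    have h7 := (ha.prime.dvd_or_dvd h6).resolve_left h4
    rw [← hqmem, hb₁q, Ideal.mem_span_singleton] at h7
    obtain ⟨c', rfl⟩ := h7
    obtain ⟨e, rfl⟩ := Polynomial.map_surjective _ Ideal.Quotient.mk_surjective c'
    exact ⟨e, by rw [hc, mul_assoc]⟩
  have hr : f - b * b * e ∈ P.asIdeal.map C := by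
    rw [Ideal.mem_map_C_iff]
    intro n
    rw [← Ideal.Quotient.eq_zero_iff_mem, ← coeff_map, Polynomial.map_sub, he, Polynomial.map_mul,
      Polynomial.map_mul, sub_self, coeff_zero]
  obtain ⟨π, hπ, hπ2⟩ := exists_unif P
  obtain ⟨σ, hσ, hσr⟩ := exists_cofactor P hπ hπ2
  obtain ⟨r', hr'⟩ := hσr _ hr
  have hbA : b.map (algebraMap O A) ∈ JJ v a := (hmem b).2 (self_mem P b)
  have hπA : algebraMap O A π ∈ v.asIdeal := by
    have h1 : π ∈ v.asIdeal.under O := by
      rw [← Ideal.LiesOver.over (p := P.asIdeal) (P := v.asIdeal)]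
      exact hπ
    exact h1
  have h1 : (0 : A[X]) * a + r'.map (algebraMap O A) * C (algebraMap O A π) ∈ JJ v a ^ 2 := by
    have h3 := congrArg (Polynomial.map (algebraMap O A)) hr'
    rw [Polynomial.map_mul, Polynomial.map_mul, map_C, map_C, Polynomial.map_sub, Polynomial.map_mul,
      Polynomial.map_mul] at h3
    rw [zero_mul, zero_add, mul_comm, ← h3]
    refine Ideal.mul_mem_left _ _ (Ideal.sub_mem _ h (Ideal.mul_mem_right _ _ ?_))
    rw [pow_two]
    exact Ideal.mul_mem_mul hbA hbA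
  have h3 := (indep v ham ha hπA (hunr π hπ hπ2) h1).2
  rw [hmem] at h3
  have hbJ := self_mem P b
  have h4 : C σ * f ∈ JJ P b ^ 2 := by
    have h5 : C σ * f = C σ * e * (b * b) + C π * r' := by
      rw [← hr']
      ring
    rw [h5, pow_two]
    exact Ideal.add_mem _ (Ideal.mul_mem_left _ _ (Ideal.mul_mem_mul hbJ hbJ))
      (Ideal.mul_mem_mul (C_mem P b hπ) h3)
  have hfJ : f ∈ JJ P b := by
    rw [mem_JJ, he, mul_assoc]
    exact ⟨_, rfl⟩
  obtain ⟨σ', i, hi, hσ'⟩ := P.isMaximal.exists_inv hσ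
  have h5 : f = C σ' * (C σ * f) + C i * f := by
    have h6 := congrArg (C : O → O[X]) hσ'
    rw [C_add, C_mul, C_1] at h6
    calc f = 1 * f := (one_mul f).symm
      _ = _ := by rw [← h6]; ring
  rw [h5]
  refine Ideal.add_mem _ (Ideal.mul_mem_left _ _ h4) ?_
  rw [pow_two]
  exact Ideal.mul_mem_mul (C_mem P b hi) hfJ

end desc

end Pool.Agent.H89.GB
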