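import Pool.Agent.H89.GB.Main

/-!
# The family `g(x) + t`
-/

set_option autoImplicit false
set_option linter.all false

open Polynomial IsDedekindDomain WithZero
open scoped Classical

namespace Pool.Agent.H89.GB

section fam

variable {k : Type} [Field k]

/-- The polynomial `g(x) + t` over `k[t]`. -/
noncomputable def gt (g : k[X]) : k[X][X] := g.map C + C X

theorem gt_monic {g : k[X]} (hg : g.Monic) (h0 : 0 < g.natDegree) : (gt g).Monic := by
  refine (hg.map C).add_of_left (lt_of_le_of_lt degree_C_le ?_)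
  rw [degree_map_eq_of_injective C_injective]
  exact natDegree_pos_iff_degree_pos.1 h0

theorem gt_natDegree {g : k[X]} (h0 : 0 < g.natDegree) : (gt g).natDegree = g.natDegree := by
  unfold gt
  rw [natDegree_add_C, natDegree_map_eq_of_injective C_injective]

/-- The ring `k[t, x] / (g(x) + t)` is the ring `k[x]`. -/
theorem exists_equiv (g : k[X]) : ∃ e : k[X] ≃+* AdjoinRoot (gt g),
    ∀ c : k, e (C c) = AdjoinRoot.of (gt g) (C c) := by
  have h1 : eval₂ (compRingHom (-g)) (X : k[X]) (gt g) = 0 := by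
    unfold gt
    have h4 : compRingHom (-g) (X : k[X]) = -g := X_comp
    rw [eval₂_add, eval₂_map, eval₂_C, h4]
    have h3 : (compRingHom (-g)).comp (C : k →+* k[X]) = C := by
      refine RingHom.ext fun c => ?_
      show (C c).comp (-g) = C c
      rw [C_comp]
    rw [h3, eval₂_C_X, add_neg_cancel]
  let φ : AdjoinRoot (gt g) →+* k[X] := AdjoinRoot.lift (compRingHom (-g)) X h1
  let ψ : k[X] →+* AdjoinRoot (gt g) :=
    eval₂RingHom ((AdjoinRoot.of (gt g)).comp C) (AdjoinRoot.root (gt g))
  have hψC : ∀ c : k, ψ (C c) = AdjoinRoot.of (gt g) (C c) := fun c => by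
    show eval₂ _ _ (C c) = _
    rw [eval₂_C]
    rfl
  have hψX : ψ X = AdjoinRoot.root (gt g) := eval₂_X _ _
  have hφr : φ (AdjoinRoot.root (gt g)) = X := AdjoinRoot.lift_root h1
  have hφof : ∀ a, φ (AdjoinRoot.of (gt g) a) = a.comp (-g) := fun a => AdjoinRoot.lift_of h1
  have hφψ : φ.comp ψ = RingHom.id k[X] := by
    apply Polynomial.ringHom_ext
    · intro c
      show φ (ψ (C c)) = C c
      rw [hψC, hφof, C_comp]
    · show φ (ψ X) = X
      rw [hψX, hφr]
  have hψg : ψ (-g) = AdjoinRoot.of (gt g) X := by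
    have h3 := AdjoinRoot.eval₂_root (gt g)
    have h4 : ∀ P : k[X][X], P = g.map C + C X →
        eval₂ (AdjoinRoot.of (gt g)) (AdjoinRoot.root (gt g)) P = ψ g +
        AdjoinRoot.of (gt g) X := by
      rintro P rfl
      rw [eval₂_add, eval₂_map, eval₂_C]
      rfl
    rw [h4 (gt g) rfl] at h3
    rw [map_neg]
    exact (eq_neg_of_add_eq_zero_right h3).symm
  have hψφ : ψ.comp φ = RingHom.id _ := by
    refine RingHom.ext fun x => ?_
    obtain ⟨P, rfl⟩ := AdjoinRoot.mk_surjective x
    show ψ (φ (AdjoinRoot.mk (gt g) P)) = AdjoinRoot.mk (gt g) P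
    have h3 : (ψ.comp (φ.comp (AdjoinRoot.mk (gt g)))) = AdjoinRoot.mk (gt g) := by
      apply Polynomial.ringHom_ext
      · intro a
        show ψ (φ (AdjoinRoot.of (gt g) a)) = AdjoinRoot.of (gt g) a
        rw [hφof]
        have h4 : (ψ.comp (compRingHom (-g))) = AdjoinRoot.of (gt g) := by
          apply Polynomial.ringHom_ext
          · intro c
            show ψ ((C c).comp (-g)) = _
            rw [C_comp, hψC]
          · show ψ (X.comp (-g)) = _
            rw [X_comp, hψg]
        exact congrArg (fun F : k[X] →+* AdjoinRoot (gt g) => F a) h4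
      · show ψ (φ (AdjoinRoot.root (gt g))) = AdjoinRoot.root (gt g)
        rw [hφr, hψX]
    exact congrArg (fun F : k[X][X] →+* AdjoinRoot (gt g) => F P) h3
  refine ⟨RingEquiv.ofRingHom ψ φ hψφ hφψ, hψC⟩

variable {g : k[X]} {p : ℕ}

theorem gt_dom (g : k[X]) : IsDomain (AdjoinRoot (gt g)) := by
  obtain ⟨e, -⟩ := exists_equiv g
  exact e.symm.toMulEquiv.isDomain k[X]

theorem gt_ded (g : k[X]) : IsDedekindDomain (AdjoinRoot (gt g)) := by
  haveI := gt_dom g
  obtain ⟨e, -⟩ := exists_equiv g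
  haveI : IsPrincipalIdealRing (AdjoinRoot (gt g)) :=
    IsPrincipalIdealRing.of_surjective e.toRingHom e.surjective
  infer_instance

theorem gt_irr (hg : g.Monic) (h0 : 0 < g.natDegree) : Irreducible (gt g) := by
  haveI := gt_dom g
  have h1 : Prime (gt g) := by
    rw [← Ideal.span_singleton_prime (gt_monic hg h0).ne_zero]
    rw [← Ideal.Quotient.isDomain_iff_prime]
    exact gt_dom g
  exact h1.irreducible

theorem gt_pol (hp : p.Prime) (hg : g.Monic) (hcop : p.Coprime g.natDegree) (hd : derivative g ≠ 0) :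
    Pol p (gt g) := by
  have h0 : 0 < g.natDegree := by
    by_contra h
    apply hd
    rw [eq_C_of_natDegree_eq_zero (Nat.eq_zero_of_not_pos h), derivative_C]
  refine ⟨gt_monic hg h0, by rw [gt_natDegree h0]; exact h0, by rw [gt_natDegree h0]; exact hcop,
    gt_irr hg h0, ?_⟩
  unfold gt
  rw [derivative_add, derivative_C, add_zero, derivative_map]
  exact (Polynomial.map_ne_zero_iff C_injective).2 hd

theorem gt_rel (hp : p.Prime) (hg : g.Monic) (hcop : p.Coprime g.natDegree)
    (hd : derivative g ≠ 0) : RelTriv p (gt g) := by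
  intro I a c ha hI hc
  have hpol := gt_pol hp hg hcop hd
  have h0 : 0 < (gt g).natDegree := hpol.pos
  haveI := gt_ded g
  obtain ⟨e, he⟩ := exists_equiv g
  haveI : IsPrincipalIdealRing (AdjoinRoot (gt g)) :=
    IsPrincipalIdealRing.of_surjective e.toRingHom e.surjective
  haveI hfin : Module.Finite k[X] (AdjoinRoot (gt g)) := hpol.monic.finite_adjoinRoot
  haveI hfree : Module.Free k[X] (AdjoinRoot (gt g)) := hpol.monic.free_adjoinRoot
  obtain ⟨j, hj⟩ := (IsPrincipalIdealRing.principal I).principal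
  have hj' : I = Ideal.span {j} := hj
  rw [hj', Ideal.span_singleton_pow, Ideal.span_singleton_eq_span_singleton] at hI
  obtain ⟨ε, hε⟩ := hI
  obtain ⟨u, hu, hu1⟩ := Polynomial.isUnit_iff.1 (ε.isUnit.map e.symm)
  have h3 : (ε : AdjoinRoot (gt g)) = algebraMap k[X] (AdjoinRoot (gt g)) (C u) := by
    have h4 : e (C u) = (ε : AdjoinRoot (gt g)) := by
      rw [hu1]
      exact e.apply_symm_apply _
    rw [← h4, he]
    rfl
  have hj0 : j ≠ 0 := by
    rintro rfl
    rw [zero_pow hp.ne_zero, zero_mul] at hε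
    exact ha hε.symm
  have hfr : Module.finrank k[X] (AdjoinRoot (gt g)) = (gt g).natDegree := by
    rw [(AdjoinRoot.powerBasis' hpol.monic).finrank, AdjoinRoot.powerBasis'_dim]
  have hNj : Algebra.norm k[X] j ≠ 0 := Algebra.norm_ne_zero_iff.2 hj0
  have h5 : c ^ p = (Algebra.norm k[X] j) ^ p * (C u) ^ (gt g).natDegree := by
    rw [← hc, ← hε, h3, map_mul, map_pow, Algebra.norm_algebraMap_of_basis
      (Module.Free.chooseBasis k[X] (AdjoinRoot (gt g))), ← Module.finrank_eq_card_chooseBasisIndex,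
      hfr]
  -- the constant is a `p`-th power
  obtain ⟨w, hw⟩ : ∃ w : k[X], C u = w ^ p := by
    set F := FractionRing k[X]
    have hinj : Function.Injective (algebraMap k[X] F) := IsFractionRing.injective k[X] F
    set κ := algebraMap k[X] F (C u) with hκ
    have hκ0 : κ ≠ 0 := by
      intro h
      have h6 : (C u : k[X]) = 0 := hinj (by rw [← hκ, h, map_zero])
      exact hu.ne_zero (C_eq_zero.1 h6)
    have hN0 : algebraMap k[X] F (Algebra.norm k[X] j) ≠ 0 := fun h =>
      hNj (hinj (by rw [h, map_zero]))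
    have h6 : κ ^ (gt g).natDegree =
        (algebraMap k[X] F c / algebraMap k[X] F (Algebra.norm k[X] j)) ^ p := by
      rw [div_pow, eq_div_iff (pow_ne_zero _ hN0), ← map_pow (algebraMap k[X] F) c, h5, map_mul,
        map_pow, map_pow, mul_comm]
    have hb := Nat.gcd_eq_gcd_ab p (gt g).natDegree
    rw [hpol.cop] at hb
    obtain ⟨y, hy⟩ : ∃ y : F, y ^ p = κ := by
      refine ⟨κ ^ (Nat.gcdA p (gt g).natDegree) *
        (algebraMap k[X] F c / algebraMap k[X] F (Algebra.norm k[X] j)) ^
          (Nat.gcdB p (gt g).natDegree), ?_⟩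
      have h7 : κ = κ ^ ((p : ℤ) * Nat.gcdA p (gt g).natDegree +
          ((gt g).natDegree : ℤ) * Nat.gcdB p (gt g).natDegree) := by
        rw [← hb]; simp
      conv_rhs => rw [h7]
      rw [zpow_add₀ hκ0, zpow_mul κ ((gt g).natDegree : ℤ), zpow_natCast κ (gt g).natDegree, h6,
        mul_pow, ← zpow_natCast (κ ^ _) p, ← zpow_natCast (_ ^ Nat.gcdB p (gt g).natDegree) p,
        ← zpow_mul, ← zpow_mul, ← zpow_natCast (_ / _) p, ← zpow_mul, mul_comm (p : ℤ),
        mul_comm (p : ℤ)]
    have hint : IsIntegral k[X] y := by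
      refine IsIntegral.of_pow (n := p) hp.pos ?_
      rw [hy]
      exact isIntegral_algebraMap
    obtain ⟨w, rfl⟩ := (IsIntegrallyClosed.isIntegral_iff (R := k[X]) (K := F)).1 hint
    refine ⟨w, hinj ?_⟩
    rw [map_pow, hy]
  exact ⟨algebraMap k[X] (AdjoinRoot (gt g)) w * j, by
    rw [← hε, h3, hw, map_pow, mul_pow, mul_comm]⟩

end fam

end Pool.Agent.H89.GB
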