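import Pool.Agent.H89.GB.RegT
import Pool.Agent.H89.KT.Main

/-!
# The Tate-Shafarevich group over towers of Kummer extensions
-/

set_option autoImplicit false
set_option linter.all false

open Polynomial IsDedekindDomain WithZero
open scoped Classical

namespace Pool.Agent.H89.GB

open Pool.Agent.H89.KT (IsKum no_tors)
open Pool.Agent.Y160.SE (IsPw)
open Pool.Agent.Q45.GP (Regular TateOver)
open Pool.Agent.Y160.SQ
open Pool.Agent.Y160.RK (ptCl spanD gen_iter no_tor_base)
open Pool.Agent.Q45.TT (tf_of)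

section main

variable {O : Type} [CommRing O] [IsDedekindDomain O] {f : O[X]} {p : ℕ} {K : Type} [Field K] [Algebra O K]

theorem exists_field (hf : Pol p f) (hirr : Irreducible (fK f K)) (hsep : (fK f K).Separable)
    (hfs : FS O K) (A : Type) [CommRing A] [Algebra O A] [Algebra A K]
    [IsScalarTower O A K] [IsIntegralClosure A O K] :
    ∃ (L R : Type) (_ : Field L) (_ : Algebra O L) (_ : Algebra K L) (_ : CommRing R)
      (_ : IsDedekindDomain R) (_ : Algebra O R) (_ : Algebra R L) (_ : Algebra A R) (θ : L),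
      IsScalarTower O K L ∧ IsScalarTower O R L ∧ IsFractionRing R L ∧
      IsIntegralClosure R O L ∧ Algebra.IsIntegral A R ∧
      (∀ a : A, algebraMap K L (algebraMap A K a) = algebraMap R L (algebraMap A R a)) ∧
      aeval θ (fK f K) = 0 ∧ IntermediateField.adjoin K {θ} = ⊤ ∧ FS O L := by
  haveI : Fact (Irreducible (fK f K)) := ⟨hirr⟩
  have hm : (fK f K).Monic := fK_monic hf K
  have hθ : aeval (AdjoinRoot.root (fK f K)) (fK f K) = 0 := by
    rw [AdjoinRoot.aeval_eq, AdjoinRoot.mk_self]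
  have htop : IntermediateField.adjoin K {AdjoinRoot.root (fK f K)} = ⊤ :=
    IntermediateField.adjoin_root_eq_top _
  have hfsL : FS O (AdjoinRoot (fK f K)) := hfs.trans (Pool.Agent.Q45.TW.fin_of hm hθ htop)
    (Pool.Agent.Q45.TW.sep_of hsep hθ htop)
  obtain ⟨R, r1, r2, r3, r4, r5⟩ := exists_ic (O := O) (AdjoinRoot (fK f K))
  obtain ⟨φ, hφ1, hφ2⟩ := exists_alg (O := O) (K' := K) (K := AdjoinRoot (fK f K)) A R
  haveI := hfsL.finite R
  letI : Algebra A R := φ.toAlgebra
  haveI : IsScalarTower O A R := IsScalarTower.of_algebraMap_eq fun p => (hφ2 p).symm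
  haveI : Module.Finite A R := Module.Finite.of_restrictScalars_finite O A R
  exact ⟨AdjoinRoot (fK f K), R, inferInstance, inferInstance, inferInstance, r1, hfsL.ded R, r2, r3,
    inferInstance, AdjoinRoot.root _, inferInstance, r4, hfsL.frac R, r5,
    Algebra.IsIntegral.of_finite A R, fun a => (hφ1 a).symm, hθ, htop, hfsL⟩

/-- The Tate-Shafarevich group and the generation, from the descent. -/
theorem sha_of (H : Base p O) (hf : Pol p f)
    (hfs : FS O K) (hirr : Irreducible (fK f K)) (hsep : (fK f K).Separable) {m : ℕ} (hm : m ≠ 0)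
    {ζ : K} (hζ : IsPrimitiveRoot ζ (p ^ m)) {A : Type} [CommRing A]
    [IsDedekindDomain A] [Algebra A K] [IsFractionRing A K] [Algebra O A]
    [IsScalarTower O A K] [IsIntegralClosure A O K] (hS : Regular K (fK f A))
    (PP : Set (K[X] × K[X]))
    (hPP : ∀ P ∈ PP, Irreducible P.1 ∧ P.1.Monic ∧ ¬ P.1 ∣ fK f K ∧ P.1 ∣ fK f K - P.2 ^ (p ^ m))
    (hpts : ∀ (L : Type) [Field L] [Algebra O L] [Algebra K L] [IsScalarTower O K L] (θ : L),
      aeval θ (fK f K) = 0 → IntermediateField.adjoin K {θ} = ⊤ →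
      ∀ (R : Type) [CommRing R] [IsDedekindDomain R] [Algebra O R] [Algebra R L]
        [IsScalarTower O R L] [IsFractionRing R L] [IsIntegralClosure R O L] (z : L),
        z ≠ 0 → (∀ w : HeightOneSpectrum R, IsPw (p ^ m) (w.valuation L z)) →
        (∃ u : K, Algebra.norm K z = u ^ (p ^ m)) →
        ∃ (u : K) (w : L) (S : Multiset (K[X] × K[X])), u ≠ 0 ∧ w ≠ 0 ∧ (∀ P ∈ S, P ∈ PP) ∧
          z = algebraMap K L u * w ^ (p ^ m) * aeval θ (dvP S)) :
    ∃ hgd : Good (p ^ m) ζ (fK f K), Pool.Agent.Y160.SH.ShaTriv p (p ^ m) A (fK f K) ∧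
      ∀ x : Jac (p ^ m) (fK f K) K, ∃ (T : Multiset (K[X] × K[X])) (v : Jac (p ^ m) (fK f K) K),
        (∀ P ∈ T, P ∈ PP) ∧
        x = (T.map (ptCl (p ^ m) (fK f K))).sum + pe hgd K (1 - X) v := by
  obtain ⟨L, R, i1, i2, i3, i4, i5, i6, i7, i8, θ, i9, i10, i11, i12, hint, hcomp, hθ, htop, hfsL⟩ :=
    exists_field hf hirr hsep hfs A
  have hgd : Good (p ^ m) ζ (fK f K) := by
    refine ⟨H.prime.isPrimePow.pow hm, hζ, fK_monic hf _, hsep, ?_⟩
    rw [fK_natDegree hf]
    exact hf.cop.pow_left m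
  refine ⟨hgd, ?_⟩
  haveI := hint
  letI : Algebra A L := ((algebraMap K L).comp (algebraMap A K)).toAlgebra
  haveI : IsScalarTower A K L := IsScalarTower.of_algebraMap_eq fun x => rfl
  haveI : IsScalarTower A R L := IsScalarTower.of_algebraMap_eq fun x => hcomp x
  haveI : Module.IsTorsionFree A R := by
    rw [Module.isTorsionFree_iff_algebraMap_injective]
    exact tf_of (K' := K) (K := L) (IsFractionRing.injective A K) fun a => (hcomp a).symm
  have hff : (fK f A).map (algebraMap A K) = fK f K := fK_alg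
  have key : ∀ (f1 : K[X]) (h : (fK f A).map (algebraMap A K) = f1) (hgd : Good (p ^ m) ζ f1),
      Irreducible f1 → aeval θ f1 = 0 →
      (∀ P ∈ PP, Irreducible P.1 ∧ P.1.Monic ∧ ¬ P.1 ∣ f1 ∧ P.1 ∣ f1 - P.2 ^ (p ^ m)) →
      Pool.Agent.Y160.SH.ShaTriv p (p ^ m) A f1 ∧
      ∀ x : Jac (p ^ m) f1 K, ∃ (T : Multiset (K[X] × K[X])) (v : Jac (p ^ m) f1 K),
        (∀ P ∈ T, P ∈ PP) ∧ x = (T.map (ptCl (p ^ m) f1)).sum + pe hgd K (1 - X) v := by
    rintro f1 rfl hgd hirr hθ' hP
    exact Pool.Agent.Q45.GP.main (p := p) (m := m) (ℓ := p ^ m) (A := A) (K := K) (N := L) (R := R)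
      H.prime rfl (f := fK f A) (ζ := ζ) hgd (fK_monic hf _)
      hS hirr (θ := θ) hθ' htop PP hP (fun z hz hev hno => hpts L θ hθ htop R z hz hev hno)
  exact key _ hff hgd hirr hθ hPP

variable {A : Type} [CommRing A] [IsDedekindDomain A] [Algebra A K] [IsFractionRing A K]
  [Algebra O A] [IsScalarTower O A K] [IsIntegralClosure A O K]

/-- **The Tate-Shafarevich group over the tower.** -/
theorem sha_tower (H : Base p O) (hf : Pol p f)
    [IsDedekindDomain (AdjoinRoot f)] (hrel : RelTriv p f) {n : ℕ} {s : ℕ → K} (h : IsTower p O K n s) (hram : Ram f A)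
    {m : ℕ} (hm : m ≠ 0) {ζ : K} (hζ : IsPrimitiveRoot ζ (p ^ m)) :
    Pool.Agent.Y160.SH.ShaTriv p (p ^ m) A (fK f K) ∧
      ∀ x : Jac (p ^ m) (fK f K) K, ∃! y, p • y = x := by
  have hfs : FS O K := h.fs H
  have hirr : Irreducible (fK f K) := IsTower.irr H hf h
  have hsep : (fK f K).Separable := IsTower.sep H hf h
  haveI : Module.Finite O A := hfs.finite A
  haveI : Module.IsTorsionFree O A := by
    rw [Module.isTorsionFree_iff_algebraMap_injective]
    exact hfs.injB A
  haveI : Algebra.IsIntegral O A := Algebra.IsIntegral.of_finite O A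
  have hreg : Regular K (fK f A) := regular_of H hf.monic (fun v => h.pow H A v) hram
  have htriv : Triv (p ^ m) f K :=
    Triv.pow H.prime (IsTower.triv H hf (fun K _ _ hK => Triv.base H.prime hf hrel hK) h
      (RamK.of hfs hram)) hf hirr m ζ hζ
  obtain ⟨hgd, h1, h3⟩ := sha_of H hf hfs hirr hsep hm hζ (A := A) hreg ∅ (fun P hP => absurd hP
    (Set.notMem_empty P)) (fun L _ _ _ _ θ hθ htop R _ _ _ _ _ _ _ z hz hev hno => by
      obtain ⟨c, hc⟩ := htriv L θ hθ htop R z hz hev hno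
      have hc0 : c ≠ 0 := by
        rintro rfl
        rw [zero_pow (pow_ne_zero _ H.prime.ne_zero)] at hc
        exact hz hc
      refine ⟨1, c, 0, one_ne_zero, hc0, fun P hP => absurd hP (Multiset.notMem_zero P), ?_⟩
      rw [hc, map_one, one_mul]
      have h5 : dvP (0 : Multiset (K[X] × K[X])) = 1 := rfl
      rw [h5, map_one, mul_one])
  refine ⟨h1, fun x => ?_⟩
  let D : Fin 0 → Jac (p ^ m) (fK f K) K := fun i => i.elim0
  obtain ⟨y, hy⟩ := gen_iter (p := p) (m := m) hyps hgd H.prime rfl D (fun x => by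
    obtain ⟨T, v, hT, hx⟩ := h3 x
    have hT0 : T = 0 := by
      rw [Multiset.eq_zero_iff_forall_notMem]
      exact fun P hP => Set.notMem_empty P (hT P hP)
    refine ⟨v, ?_⟩
    rw [hx, add_sub_cancel_right, hT0, Multiset.map_zero, Multiset.sum_zero]
    exact AddSubgroup.zero_mem _) 1 x
  have h5 : spanD hgd D = ⊥ := by
    unfold spanD
    rw [eq_bot_iff, AddSubgroup.closure_le]
    rintro _ ⟨⟨i, _⟩, rfl⟩
    exact i.elim0
  rw [h5, AddSubgroup.mem_bot, pow_one, sub_eq_zero] at hy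
  refine ⟨y, hy.symm, fun y' hy' => ?_⟩
  have h6 : p • (y' - y) = 0 := by
    rw [smul_sub, hy', ← hy, sub_self]
  exact sub_eq_zero.1 (no_tors H.prime rfl hgd hirr h6)

end main

end Pool.Agent.H89.GB
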