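import Pool.Agent.H89.GB.Tow
import Pool.Agent.H89.KT.Triv

/-!
# The polynomial `f`, residue degrees and the classes fixed by the Galois group
-/

set_option autoImplicit false
set_option linter.all false

open Polynomial IsDedekindDomain WithZero
open scoped Classical

namespace Pool.Agent.H89.GB

open Pool.Agent.H89.KT (IsKum irr_cop inertia_prime kum_up gal_comp norm_gal root_of)
open Pool.Agent.Y160.SE (IsPw)
open Pool.Agent.Q45.TT (inertia_le exists_above tf_of inert_of val_under)

/-- The polynomial `f` over `O` as a polynomial over `K`. -/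
noncomputable def fK {O : Type} [CommRing O] [IsDedekindDomain O] (f : O[X]) (K : Type) [CommRing K] [Algebra O K] :
    K[X] := f.map (algebraMap O K)

/-- The polynomial `f` is monic, of positive degree prime to `p`, irreducible and separable over
the field of fractions. -/
structure Pol (p : ℕ) {O : Type} [CommRing O] [IsDedekindDomain O] (f : O[X]) : Prop where
  monic : f.Monic
  pos : 0 < f.natDegree
  cop : p.Coprime f.natDegree
  irr : Irreducible f
  der : derivative f ≠ 0

section basic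

variable {O : Type} [CommRing O] [IsDedekindDomain O] {f : O[X]} {p : ℕ}

theorem fK_monic (hf : Pol p f) (K : Type) [CommRing K] [Algebra O K] : (fK f K).Monic :=
  hf.monic.map _

theorem fK_natDegree (hf : Pol p f) (K : Type) [CommRing K] [Nontrivial K] [Algebra O K] :
    (fK f K).natDegree = f.natDegree := hf.monic.natDegree_map _

theorem fK_pos (hf : Pol p f) (K : Type) [CommRing K] [Nontrivial K] [Algebra O K] :
    0 < (fK f K).natDegree := by
  rw [fK_natDegree hf]
  exact hf.pos

theorem fK_alg {K' K : Type} [CommRing K'] [CommRing K] [Algebra O K'] [Algebra O K]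
    [Algebra K' K] [IsScalarTower O K' K] : (fK f K').map (algebraMap K' K) = fK f K := by
  unfold fK
  rw [Polynomial.map_map, ← IsScalarTower.algebraMap_eq]

theorem irr_step (hf : Pol p f) {K' K : Type} [Field K'] [Field K] [Algebra O K']
    [Algebra O K] [Algebra K' K] [IsScalarTower O K' K] {D : K'} {s : K} (hq : IsKum p D s)
    (h : Irreducible (fK f K')) : Irreducible (fK f K) := by
  haveI := hq.fin
  rw [← fK_alg (K' := K') (K := K)]
  refine irr_cop (fK_monic hf K') (fK_pos hf K') ?_ h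
  rw [hq.finrank, fK_natDegree hf]
  exact hf.cop

theorem Pol.irr_base (hf : Pol p f) {K : Type} [Field K] [Algebra O K]
    (hK : IsFractionRing O K) : Irreducible (fK f K) :=
  (hf.monic.irreducible_iff_irreducible_map_fraction_map (K := K)).1 hf.irr

theorem Pol.sep_of (hf : Pol p f) {K : Type} [Field K] [Algebra O K]
    (hinj : Function.Injective (algebraMap O K)) (hirr : Irreducible (fK f K)) :
    (fK f K).Separable := by
  rw [separable_iff_derivative_ne_zero hirr]
  unfold fK
  rw [derivative_map]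
  exact (Polynomial.map_ne_zero_iff hinj).2 hf.der

/-- The polynomial `f` is irreducible and separable over the tower. -/
theorem IsTower.irr (H : Base p O) (hf : Pol p f)
    {K : Type} [Field K] [Algebra O K] {m : ℕ} {s : ℕ → K} (h : IsTower p O K m s) :
    Irreducible (fK f K) := by
  refine IsTower.ind H (M := fun K _ _ => Irreducible (fK f K))
    (fun K _ _ hK => hf.irr_base hK) ?_ m K s h
  intro K' K _ _ _ _ _ _ D s hq _ _ ih
  exact irr_step hf hq ih

theorem IsTower.sep (H : Base p O) (hf : Pol p f)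
    {K : Type} [Field K] [Algebra O K] {m : ℕ} {s : ℕ → K} (h : IsTower p O K m s) :
    (fK f K).Separable :=
  hf.sep_of h.inj (IsTower.irr H hf h)

end basic

section pow

variable {O : Type} [CommRing O] [IsDedekindDomain O] {p : ℕ}

/-- The residue degrees are powers of `p`. -/
theorem IsTower.pow (H : Base p O) {K : Type} [Field K] [Algebra O K] {m : ℕ} {s : ℕ → K}
    (h : IsTower p O K m s) : ∀ (A : Type) [CommRing A] [Algebra O A] [Algebra A K]
    [IsScalarTower O A K] [IsIntegralClosure A O K] (v : HeightOneSpectrum A),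
    ∃ j : ℕ, v.asIdeal.inertiaDeg O = p ^ j := by
  refine IsTower.ind H (M := fun K _ _ => ∀ (A : Type) [CommRing A] [Algebra O A] [Algebra A K]
    [IsScalarTower O A K] [IsIntegralClosure A O K] (v : HeightOneSpectrum A),
    ∃ j : ℕ, v.asIdeal.inertiaDeg O = p ^ j) ?_ ?_ m K s h
  · intro K _ _ hK A _ _ _ _ _ v
    have hfs : FS O K := FS.base hK
    haveI := hfs.ded A
    haveI := hfs.frac A
    haveI := hfs.finite A
    haveI : Module.IsTorsionFree O A := by
      rw [Module.isTorsionFree_iff_algebraMap_injective]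
      exact hfs.injB A
    haveI : Algebra.IsIntegral O A := Algebra.IsIntegral.of_finite O A
    obtain ⟨h1, h3⟩ := inertia_le (A := O) (B := A) v
    have h4 : Module.finrank O A = 1 := by
      rw [← IsFractionRing.finrank_eq O K A K, Module.finrank_self]
    refine ⟨0, ?_⟩
    rw [h4] at h1
    rw [pow_zero]
    omega
  · intro K' K _ _ _ _ _ _ D s hq hinj htw ih A _ _ _ _ _ v
    obtain ⟨m', s', htw⟩ := htw
    have hfs' : FS O K' := htw.fs H
    have hfs : FS O K := hfs'.trans hq.fin hq.separable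
    obtain ⟨A', a1, a2, a3, a4, a5⟩ := exists_ic (O := O) K'
    obtain ⟨φ, hφ1, hφ2⟩ := exists_alg (O := O) (K' := K') (K := K) A' A
    letI : Algebra A' A := φ.toAlgebra
    haveI : IsScalarTower O A' A := IsScalarTower.of_algebraMap_eq fun p => (hφ2 p).symm
    haveI := hfs.ded A
    haveI := hfs.frac A
    haveI := hfs.finite A
    haveI := hfs'.ded A'
    haveI := hfs'.frac A'
    haveI : Module.Finite A' A := Module.Finite.of_restrictScalars_finite O A' A
    haveI : Algebra.IsIntegral A' A := Algebra.IsIntegral.of_finite A' A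
    haveI : Module.IsTorsionFree A' A := by
      rw [Module.isTorsionFree_iff_algebraMap_injective]
      exact tf_of (K' := K') (K := K) (IsFractionRing.injective A' K') hφ1
    haveI hlo : v.asIdeal.LiesOver (v.under A').asIdeal := ⟨rfl⟩
    letI : Algebra A' K := ((algebraMap K' K).comp (algebraMap A' K')).toAlgebra
    haveI : IsScalarTower A' K' K := IsScalarTower.of_algebraMap_eq fun _ => rfl
    haveI : IsScalarTower A' A K := IsScalarTower.of_algebraMap_eq fun a => (hφ1 a).symm
    haveI := hq.fin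
    haveI := hq.galois
    obtain ⟨j, hj⟩ := ih A' (v.under A')
    have h5 := Ideal.inertiaDeg_tower (R := O) (v.under A').asIdeal v.asIdeal
    rw [h5, hj]
    rcases inertia_prime (A := A') (B := A) (K := K') (L := K) hq.prime hq.finrank v with h6 | h6
    · exact ⟨j, by rw [h6, mul_one]⟩
    · exact ⟨j + 1, by rw [h6, pow_succ]⟩

end pow

section res

variable {O : Type} [CommRing O] [IsDedekindDomain O] {B : Type} [CommRing B] [IsDedekindDomain B]
  [Algebra O B] [Module.Finite O B] [Module.IsTorsionFree O B] [Algebra.IsIntegral O B]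

/-- The residue degree is divisible by the degree of `f`, if `f` is irreducible modulo the prime
below. -/
theorem dvd_inertia (w : HeightOneSpectrum B) {f : O[X]} (hm : f.Monic) (θ : B)
    (hθ : eval₂ (algebraMap O B) θ f = 0)
    (hirr : Irreducible (f.map (Ideal.Quotient.mk (w.under O).asIdeal))) :
    f.natDegree ∣ w.asIdeal.inertiaDeg O := by
  obtain ⟨P, hP⟩ : ∃ P : HeightOneSpectrum O, P = w.under O := ⟨_, rfl⟩
  haveI : P.asIdeal.IsMaximal := P.isMaximal
  haveI hlo : w.asIdeal.LiesOver P.asIdeal := by rw [hP]; exact ⟨rfl⟩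
  haveI := w.isMaximal
  rw [← hP] at hirr
  rw [Ideal.inertiaDeg_eq_of_isMaximal P.asIdeal w.asIdeal]
  letI : Field (O ⧸ P.asIdeal) := Ideal.Quotient.field _
  letI : Field (B ⧸ w.asIdeal) := Ideal.Quotient.field _
  -- the root
  set η : B ⧸ w.asIdeal := Ideal.Quotient.mk _ θ with hη
  have hroot : aeval η (f.map (Ideal.Quotient.mk P.asIdeal)) = 0 := by
    rw [aeval_def, eval₂_map]
    have h4 : (algebraMap (O ⧸ P.asIdeal) (B ⧸ w.asIdeal)).comp (Ideal.Quotient.mk P.asIdeal) =
        (Ideal.Quotient.mk w.asIdeal).comp (algebraMap O B) := RingHom.ext fun x => rfl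
    rw [h4, ← hom_eval₂, hθ, map_zero]
  have hmon : (f.map (Ideal.Quotient.mk P.asIdeal)).Monic := hm.map _
  have hmin : minpoly (O ⧸ P.asIdeal) η = f.map (Ideal.Quotient.mk P.asIdeal) :=
    (minpoly.eq_of_irreducible_of_monic hirr hroot hmon).symm
  have hint : IsIntegral (O ⧸ P.asIdeal) η := ⟨_, hmon, hroot⟩
  have h4 := IntermediateField.adjoin.finrank hint
  rw [hmin, hm.natDegree_map] at h4
  rw [← h4]
  exact ⟨_, (Module.finrank_mul_finrank (O ⧸ P.asIdeal)
    (IntermediateField.adjoin (O ⧸ P.asIdeal) {η}) (B ⧸ w.asIdeal)).symm⟩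

end res

section inert

variable {O : Type} [CommRing O] [IsDedekindDomain O] {A' R' : Type} [CommRing A']
  [IsDedekindDomain A'] [CommRing R']
  [IsDedekindDomain R'] [Algebra A' R'] [Algebra O A'] [Algebra O R']
  [IsScalarTower O A' R'] [Module.IsTorsionFree A' R'] [Module.Finite A' R']
  [Module.Finite O R'] [Module.IsTorsionFree O R'] [Algebra.IsIntegral O R']

theorem inert_q [Algebra.IsIntegral A' R'] (q : HeightOneSpectrum R') {f : O[X]}
    {p : ℕ} (θ : R') (hθ : eval₂ (algebraMap O R') θ f = 0)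
    (hirr : Irreducible (f.map (Ideal.Quotient.mk (q.under O).asIdeal)))
    (hf : Pol p f) (hn : Module.finrank A' R' = f.natDegree) {j : ℕ}
    (hj : (q.under A').asIdeal.inertiaDeg O = p ^ j) :
    (q.under A').asIdeal.map (algebraMap A' R') = q.asIdeal := by
  haveI hlo : q.asIdeal.LiesOver (q.under A').asIdeal := ⟨rfl⟩
  refine inert_of q ?_
  rw [hn]
  have h1 := dvd_inertia q hf.monic θ hθ hirr
  rw [Ideal.inertiaDeg_tower (R := O) (q.under A').asIdeal q.asIdeal, hj] at h1
  exact (hf.cop.symm.pow_right j).dvd_of_dvd_mul_left h1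

end inert

section fixed

variable {O : Type} [CommRing O] [IsDedekindDomain O] {f : O[X]} {p : ℕ} {K' K L' L : Type} [Field K'] [Field K]
  [Field L']
  [Field L] [Algebra O K'] [Algebra O K] [Algebra O L'] [Algebra O L]
  [Algebra K' K] [Algebra K' L'] [Algebra K L] [Algebra L' L] [Algebra K' L]
  [IsScalarTower K' K L] [IsScalarTower K' L' L] [IsScalarTower O K' K]
  [IsScalarTower O K' L'] [IsScalarTower O L' L] [IsScalarTower O K L]
  {D : K'} {s : K}

/-- **A class fixed by the Galois group comes from the smaller field.** -/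
theorem fixed_class (hf : Pol p f) (hq : IsKum p D s) {θ' : L'} (hθ' : aeval θ' (fK f K') = 0)
    (htop' : IntermediateField.adjoin K' {θ'} = ⊤)
    (htop : IntermediateField.adjoin K {algebraMap L' L θ'} = ⊤)
    (hirr' : Irreducible (fK f K')) (hirr : Irreducible (fK f K)) (hsep' : (fK f K').Separable)
    {ζ : K'} (hζ : IsPrimitiveRoot ζ p) {γ : L ≃ₐ[L'] L}
    (hγ : γ (algebraMap K L s) = algebraMap L' L (algebraMap K' L' ζ) * algebraMap K L s)
    (hγ2 : ∀ x, x ∈ Subgroup.zpowers γ)
    {z : L} (hz : z ≠ 0) {y : K} (hy : Algebra.norm K z = y ^ p) {w : L} (hw : w ≠ 0)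
    (hzw : γ z = z * w ^ p) :
    ∃ (z' : L') (v : L) (c : K'), z' ≠ 0 ∧ v ≠ 0 ∧ Algebra.norm K' z' = c ^ p ∧
      z = algebraMap L' L z' * v ^ p := by
  have hp := hq.prime
  have hm' : (fK f K').Monic := fK_monic hf K'
  have hm : (fK f K).Monic := fK_monic hf K
  have hqL : IsKum p (algebraMap K' L' D) (algebraMap K L s) := by
    refine kum_up hq htop' htop hm' (fK_pos hf K') hirr' ?_ hθ'
    rwa [fK_alg]
  haveI := hq.fin
  haveI := hqL.fin
  haveI : FiniteDimensional K' L' := Pool.Agent.Q45.TW.fin_of hm' hθ' htop'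
  have hθ : aeval (algebraMap L' L θ') (fK f K) = 0 := by
    rw [← fK_alg (K' := K'), aeval_map_algebraMap, aeval_algebraMap_apply, hθ', map_zero]
  haveI : FiniteDimensional K L := Pool.Agent.Q45.TW.fin_of hm hθ htop
  haveI : FiniteDimensional K' L := Module.Finite.trans K L
  have hn' : Module.finrank K' L' = f.natDegree := by
    rw [Pool.Agent.Q45.TW.finrank_of hirr' hm' hθ' htop', fK_natDegree hf]
  obtain ⟨γ₀, hγ₀, -⟩ := hq.exists_gen hζ
  have hcomp := gal_comp hq hγ₀ hγ
  have hNz : Algebra.norm K z ≠ 0 := (Algebra.norm_ne_zero_iff).2 hz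
  have hy0 : y ≠ 0 := by
    rintro rfl
    rw [zero_pow hp.ne_zero] at hy
    exact hNz hy
  have hNw : Algebra.norm K w ≠ 0 := (Algebra.norm_ne_zero_iff).2 hw
  -- the norm to `K'` of `w` is one
  have h1 : (γ₀ y) ^ p = (y * Algebra.norm K w) ^ p := by
    rw [← map_pow, ← hy, ← norm_gal hcomp, hzw, map_mul, map_pow, hy, mul_pow]
  obtain ⟨j, hj⟩ := root_of hp (hζ.map_of_injective (algebraMap K' K).injective)
    (mul_ne_zero hy0 hNw) h1
  have hNy : Algebra.norm K' y ≠ 0 := (Algebra.norm_ne_zero_iff).2 hy0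
  have h3 : Algebra.norm K' (Algebra.norm K w) = 1 := by
    have h4 := congrArg (Algebra.norm K') hj
    have h5 : Algebra.norm K' (γ₀ y) = Algebra.norm K' y := Algebra.norm_eq_of_algEquiv γ₀ y
    rw [h5, map_mul, map_mul, ← map_pow, Algebra.norm_algebraMap, hq.finrank, ← pow_mul, mul_comm j,
      pow_mul, hζ.pow_eq_one, one_pow, one_mul] at h4
    have h6 : Algebra.norm K' y * (Algebra.norm K' (Algebra.norm K w) - 1) = 0 := by
      rw [mul_sub, mul_one, ← h4, sub_self]
    exact sub_eq_zero.1 ((mul_eq_zero.1 h6).resolve_left hNy)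
  rw [Algebra.norm_norm] at h3
  -- the norm to `L'`
  have h5 : (Algebra.norm L' w) ^ p = 1 ^ p := by
    have h6 : Algebra.norm L' (γ z) = Algebra.norm L' z := Algebra.norm_eq_of_algEquiv γ z
    rw [hzw, map_mul, map_pow] at h6
    have h7 : Algebra.norm L' z ≠ 0 := (Algebra.norm_ne_zero_iff).2 hz
    rw [one_pow]
    have h8 : Algebra.norm L' z * (Algebra.norm L' w ^ p - 1) = 0 := by
      rw [mul_sub, mul_one, h6, sub_self]
    exact sub_eq_zero.1 ((mul_eq_zero.1 h8).resolve_left h7)
  obtain ⟨i, hi⟩ := root_of hp (hζ.map_of_injective (algebraMap K' L').injective) one_ne_zero h5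
  rw [mul_one, ← map_pow] at hi
  have h6 : (ζ ^ i) ^ f.natDegree = 1 := by
    rw [← hn', ← Algebra.norm_algebraMap (S := L'), ← hi, Algebra.norm_norm, h3]
  have h7 : p ∣ i := by
    rw [← pow_mul] at h6
    exact hf.cop.dvd_of_dvd_mul_right (hζ.dvd_of_pow_eq_one _ h6)
  have h8 : Algebra.norm L' w = 1 := by
    rw [hi, (hζ.pow_eq_one_iff_dvd i).2 h7, map_one]
  -- Hilbert's theorem 90
  obtain ⟨v, hv0, hv⟩ := hqL.hilbert hγ2 h8
  have hfix : γ (z / v ^ p) = z / v ^ p := by
    rw [map_div₀, map_pow, hv, hzw, mul_pow]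
    have := pow_ne_zero p hw
    have := pow_ne_zero p hv0
    field_simp
  obtain ⟨z₁, hz₁⟩ := hqL.fixed hγ2 hfix
  have hzz : z = algebraMap L' L z₁ * v ^ p := by
    rw [hz₁, div_mul_cancel₀ _ (pow_ne_zero p hv0)]
  have hz₁0 : z₁ ≠ 0 := by
    rintro rfl
    rw [map_zero, zero_mul] at hzz
    exact hz hzz
  have hno : Algebra.norm K (algebraMap L' L z₁) = algebraMap K' K (Algebra.norm K' z₁) :=
    Pool.Agent.Q45.TW.norm_base hm' hsep' hirr' (by rwa [fK_alg]) hθ' htop' htop z₁
  have hNv : Algebra.norm K v ≠ 0 := (Algebra.norm_ne_zero_iff).2 hv0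
  have hν0 : Algebra.norm K' z₁ ≠ 0 := (Algebra.norm_ne_zero_iff).2 hz₁0
  have h9 : (y / Algebra.norm K v) ^ p = algebraMap K' K (Algebra.norm K' z₁) := by
    rw [div_pow, ← hy, ← hno, div_eq_iff (pow_ne_zero p hNv), ← map_pow, ← map_mul, ← hzz]
  obtain ⟨c, j', hc, hcν⟩ := hq.pw_base hν0 h9
  -- correction by a power of `D`
  obtain ⟨a, ha⟩ : ∃ a : ℕ, p ∣ j' + f.natDegree * a := by
    haveI : NeZero p := ⟨hp.ne_zero⟩
    obtain ⟨b, -, hb⟩ := Nat.exists_mul_mod_eq_one_of_coprime hf.cop.symm hp.one_lt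
    obtain ⟨q, hq⟩ : ∃ q, f.natDegree * b = 1 + p * q :=
      ⟨f.natDegree * b / p, by rw [← hb, Nat.mod_add_div]⟩
    obtain ⟨r, hr⟩ : ∃ r, p = r + 1 := Nat.exists_eq_succ_of_ne_zero hp.ne_zero
    refine ⟨b * (r * j'), j' + q * (r * j'), ?_⟩
    rw [← mul_assoc, hq, hr]
    ring
  obtain ⟨b, hb⟩ := ha
  have hs : algebraMap K L s ≠ 0 := (_root_.map_ne_zero _).2 hq.s_ne
  have hD' : algebraMap K' L' D ≠ 0 := (_root_.map_ne_zero _).2 hq.ne_zero
  refine ⟨z₁ * algebraMap K' L' D ^ a, v / algebraMap K L s ^ a, c * D ^ b,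
    mul_ne_zero hz₁0 (pow_ne_zero _ hD'), div_ne_zero hv0 (pow_ne_zero _ hs), ?_, ?_⟩
  · rw [map_mul, ← map_pow, Algebra.norm_algebraMap, hn', hcν, mul_pow, ← pow_mul, ← pow_mul, mul_assoc,
      ← pow_add, mul_comm a, hb, mul_comm b]
  · rw [hzz, map_mul, map_pow, ← hqL.pw, div_pow]
    have := pow_ne_zero a (pow_ne_zero p hs)
    field_simp
    ring

end fixed

end Pool.Agent.H89.GB
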