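import Pool.Agent.H89.GB.Base
import Pool.Graph.R_pool_sql_team_seeded_3997aac3.Q45.TT.Main

/-!
# Regularity
-/

set_option autoImplicit false
set_option linter.all false

open Polynomial IsDedekindDomain WithZero
open scoped Classical

namespace Pool.Agent.H89.GB

section loc

variable {O : Type} [CommRing O] [IsDedekindDomain O]

/-- The ideal `(b, P)` of `O[x]`. -/
noncomputable def JJ (P : HeightOneSpectrum O) (b : O[X]) : Ideal O[X] :=
  Ideal.span {b} ⊔ P.asIdeal.map C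

theorem mem_JJ (P : HeightOneSpectrum O) (b x : O[X]) :
    x ∈ JJ P b ↔ b.map (Ideal.Quotient.mk P.asIdeal) ∣ x.map (Ideal.Quotient.mk P.asIdeal) := by
  constructor
  · intro hx
    obtain ⟨y, hy, z, hz, rfl⟩ := Submodule.mem_sup.1 hx
    obtain ⟨c, rfl⟩ := Ideal.mem_span_singleton.1 hy
    have h1 : z.map (Ideal.Quotient.mk P.asIdeal) = 0 := by
      refine Polynomial.ext fun n => ?_
      rw [coeff_map, coeff_zero]
      exact Ideal.Quotient.eq_zero_iff_mem.2 (Ideal.mem_map_C_iff.1 hz n)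
    rw [Polynomial.map_add, Polynomial.map_mul, h1, add_zero]
    exact ⟨_, rfl⟩
  · rintro ⟨c, hc⟩
    obtain ⟨y, rfl⟩ := Polynomial.map_surjective _ (Ideal.Quotient.mk_surjective) c
    have h1 : x - b * y ∈ P.asIdeal.map C := by
      rw [Ideal.mem_map_C_iff]
      intro n
      rw [← Ideal.Quotient.eq_zero_iff_mem, ← coeff_map, Polynomial.map_sub, hc, Polynomial.map_mul,
        sub_self, coeff_zero]
    have h3 : x = b * y + (x - b * y) := by ring
    rw [h3]
    exact Ideal.add_mem _ (Ideal.mem_sup_left (Ideal.mul_mem_right _ _ (Ideal.mem_span_singleton_self b)))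
      (Ideal.mem_sup_right h1)

theorem JJ_eq (P : HeightOneSpectrum O) (b : O[X]) :
    JJ P b = (Ideal.span {b.map (Ideal.Quotient.mk P.asIdeal)}).comap
      (mapRingHom (Ideal.Quotient.mk P.asIdeal)) := by
  ext x
  rw [mem_JJ, Ideal.mem_comap, Ideal.mem_span_singleton]
  rfl

theorem JJ_max (P : HeightOneSpectrum O) {b : O[X]}
    (hb : Irreducible (b.map (Ideal.Quotient.mk P.asIdeal))) : (JJ P b).IsMaximal := by
  haveI := P.isMaximal
  letI : Field (O ⧸ P.asIdeal) := Ideal.Quotient.field _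
  rw [JJ_eq]
  haveI : (Ideal.span {b.map (Ideal.Quotient.mk P.asIdeal)}).IsMaximal :=
    PrincipalIdealRing.isMaximal_of_irreducible hb
  exact Ideal.comap_isMaximal_of_surjective _
    (Polynomial.map_surjective _ Ideal.Quotient.mk_surjective)

theorem self_mem (P : HeightOneSpectrum O) (b : O[X]) : b ∈ JJ P b :=
  Ideal.mem_sup_left (Ideal.mem_span_singleton_self b)

theorem C_mem (P : HeightOneSpectrum O) (b : O[X]) {π : O} (hπ : π ∈ P.asIdeal) : C π ∈ JJ P b :=
  Ideal.mem_sup_right (Ideal.mem_map_of_mem C hπ)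

theorem dec (P : HeightOneSpectrum O) {b x : O[X]} (hx : x ∈ JJ P b ^ 2) :
    ∃ j ∈ JJ P b, ∃ ν ∈ (P.asIdeal ^ 2).map C, x = b * j + ν := by
  rw [pow_two] at hx
  refine Submodule.mul_induction_on hx ?_ ?_
  · intro m hm n hn
    obtain ⟨y, hy, μ, hμ, rfl⟩ := Submodule.mem_sup.1 hm
    obtain ⟨y', hy', ν, hν, rfl⟩ := Submodule.mem_sup.1 hn
    obtain ⟨c, rfl⟩ := Ideal.mem_span_singleton.1 hy
    obtain ⟨c', rfl⟩ := Ideal.mem_span_singleton.1 hy'
    refine ⟨c * (b * c' + ν) + μ * c', Ideal.add_mem _ (Ideal.mul_mem_left _ _ hn)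
      (Ideal.mul_mem_right _ _ (Ideal.mem_sup_right hμ)), μ * ν, ?_, by ring⟩
    rw [Ideal.map_pow, pow_two]
    exact Ideal.mul_mem_mul hμ hν
  · rintro x y ⟨j, hj, ν, hν, rfl⟩ ⟨j', hj', ν', hν', rfl⟩
    exact ⟨j + j', Ideal.add_mem _ hj hj', ν + ν', Ideal.add_mem _ hν hν', by ring⟩

theorem C_nmem (P : HeightOneSpectrum O) {b : O[X]} (hbm : b.Monic)
    (hb : Irreducible (b.map (Ideal.Quotient.mk P.asIdeal))) {π : O} (hπ2 : π ∉ P.asIdeal ^ 2) :
    C π ∉ JJ P b ^ 2 := by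
  intro h
  obtain ⟨j, -, ν, hν, hj⟩ := dec P h
  haveI := P.isMaximal
  letI : Field (O ⧸ P.asIdeal) := Ideal.Quotient.field _
  haveI : Nontrivial (O ⧸ P.asIdeal ^ 2) := by
    rw [Ideal.Quotient.nontrivial_iff]
    intro h3
    exact hπ2 (h3 ▸ Submodule.mem_top)
  have hd : 0 < b.natDegree := by
    have h1 := hb.natDegree_pos
    rwa [hbm.natDegree_map] at h1
  set ψ := Ideal.Quotient.mk (P.asIdeal ^ 2) with hψ
  have h1 : ν.map ψ = 0 := by
    refine Polynomial.ext fun n => ?_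
    rw [coeff_map, coeff_zero]
    exact Ideal.Quotient.eq_zero_iff_mem.2 (Ideal.mem_map_C_iff.1 hν n)
  have h3 := congrArg (Polynomial.map ψ) hj
  rw [map_C, Polynomial.map_add, Polynomial.map_mul, h1, add_zero] at h3
  have h4 : j.map ψ = 0 := by
    by_contra h5
    have h6 := (hbm.map ψ).natDegree_mul' h5
    rw [← h3, natDegree_C, hbm.natDegree_map] at h6
    omega
  rw [h4, mul_zero, C_eq_zero] at h3
  exact hπ2 (Ideal.Quotient.eq_zero_iff_mem.1 h3)

theorem indep (P : HeightOneSpectrum O) {b : O[X]} (hbm : b.Monic)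
    (hb : Irreducible (b.map (Ideal.Quotient.mk P.asIdeal))) {π : O} (hπ : π ∈ P.asIdeal)
    (hπ2 : π ∉ P.asIdeal ^ 2) {u w : O[X]} (h : u * b + w * C π ∈ JJ P b ^ 2) :
    u ∈ JJ P b ∧ w ∈ JJ P b := by
  haveI := P.isMaximal
  letI : Field (O ⧸ P.asIdeal) := Ideal.Quotient.field _
  have hmax := JJ_max P hb
  have hu : u ∈ JJ P b := by
    rw [mem_JJ]
    obtain ⟨j, hj, ν, hν, hx⟩ := dec P h
    have h1 : ν.map (Ideal.Quotient.mk P.asIdeal) = 0 := by
      refine Polynomial.ext fun n => ?_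
      rw [coeff_map, coeff_zero]
      exact Ideal.Quotient.eq_zero_iff_mem.2 (Ideal.pow_le_self two_ne_zero
        (Ideal.mem_map_C_iff.1 hν n))
    have h3 := congrArg (Polynomial.map (Ideal.Quotient.mk P.asIdeal)) hx
    rw [Polynomial.map_add, Polynomial.map_mul, Polynomial.map_mul, map_C,
      Ideal.Quotient.eq_zero_iff_mem.2 hπ, C_0, mul_zero, add_zero, Polynomial.map_add,
      Polynomial.map_mul, h1, add_zero, mul_comm] at h3
    have h4 := mul_left_cancel₀ hb.ne_zero h3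
    rw [h4]
    exact (mem_JJ P b j).1 hj
  refine ⟨hu, ?_⟩
  have h1 : w * C π ∈ JJ P b ^ 2 := by
    have h3 : w * C π = (u * b + w * C π) - u * b := by ring
    rw [h3]
    refine Ideal.sub_mem _ h ?_
    rw [pow_two]
    exact Ideal.mul_mem_mul hu (self_mem P b)
  by_contra hw
  obtain ⟨w', hw'⟩ : ∃ w', 1 - w * w' ∈ JJ P b := by
    obtain ⟨y, i, hi, hy⟩ := hmax.exists_inv hw
    exact ⟨y, by rw [← hy]; ring_nf; exact hi⟩
  refine C_nmem P hbm hb hπ2 ?_
  have h3 : C π = (1 - w * w') * C π + w' * (w * C π) := by ring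
  rw [h3]
  refine Ideal.add_mem _ ?_ (Ideal.mul_mem_left _ _ h1)
  rw [pow_two]
  exact Ideal.mul_mem_mul hw' (C_mem P b hπ)

theorem exists_unif (P : HeightOneSpectrum O) : ∃ π : O, π ∈ P.asIdeal ∧ π ∉ P.asIdeal ^ 2 := by
  obtain ⟨π, hπ⟩ := P.intValuation_exists_uniformizer
  refine ⟨π, ?_, ?_⟩
  · rw [← P.intValuation_lt_one_iff_mem, hπ, ← exp_zero]
    exact exp_lt_exp.2 (by norm_num)
  · rw [← P.intValuation_le_pow_iff_mem, hπ, exp_le_exp]
    norm_num

/-- If `O[x] / (f)` is a Dedekind domain, then `f` is not in the square of a maximal ideal. -/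
theorem nmem_sq {f : O[X]} (hfm : f.Monic) [IsDedekindDomain (AdjoinRoot f)]
    (P : HeightOneSpectrum O) {b : O[X]} (hbm : b.Monic)
    (hb : Irreducible (b.map (Ideal.Quotient.mk P.asIdeal))) : f ∉ JJ P b ^ 2 := by
  intro hf
  haveI := P.isMaximal
  letI : Field (O ⧸ P.asIdeal) := Ideal.Quotient.field _
  have hmax := JJ_max P hb
  have hfJ : f ∈ JJ P b := Ideal.pow_le_self two_ne_zero hf
  set μ : O[X] →+* AdjoinRoot f := AdjoinRoot.mk f with hμ
  have hμs : Function.Surjective μ := AdjoinRoot.mk_surjective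
  obtain ⟨M, hM⟩ : ∃ M, M = (JJ P b).map μ := ⟨_, rfl⟩
  have hcom : M.comap μ = JJ P b := by
    rw [hM, Ideal.comap_map_of_surjective _ hμs, sup_eq_left]
    intro x hx
    have h1 : μ x = 0 := hx
    rw [hμ, AdjoinRoot.mk_eq_zero] at h1
    obtain ⟨c, rfl⟩ := h1
    exact Ideal.mul_mem_right _ _ hfJ
  have hMmax : M.IsMaximal := by
    rcases Ideal.map_eq_top_or_isMaximal_of_surjective μ hμs hmax with h1 | h1
    · exfalso
      rw [← hM] at h1
      rw [h1, Ideal.comap_top] at hcom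
      exact hmax.ne_top hcom.symm
    · rw [hM]; exact h1
  haveI := hMmax.isPrime
  obtain ⟨π, hπ, hπ2⟩ := exists_unif P
  have hπ0 : π ≠ 0 := by
    rintro rfl
    exact hπ2 (Ideal.zero_mem _)
  have hM0 : M ≠ ⊥ := by
    intro h1
    have h3 : μ (C π) ∈ M := by
      rw [hM]
      exact Ideal.mem_map_of_mem μ (C_mem P b hπ)
    rw [h1, Ideal.mem_bot, hμ, AdjoinRoot.mk_eq_zero] at h3
    have hfd : 0 < f.natDegree := by
      by_contra h4
      have h5 : f = 1 := hfm.natDegree_eq_zero.1 (by omega)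
      rw [h5] at hfJ
      exact hmax.ne_top ((Ideal.eq_top_iff_one _).2 hfJ)
    have h4 := hfm.not_dvd_of_natDegree_lt (C_ne_zero.2 hπ0) (by rw [natDegree_C]; exact hfd)
    exact h4 h3
  -- an element of `M` outside `M ^ 2`
  obtain ⟨y, hyM, hy2⟩ : ∃ y ∈ M, y ∉ M ^ 2 := by
    by_contra hcon
    push Not at hcon
    have h1 : M ^ 2 = M ^ 1 := le_antisymm (Ideal.pow_le_pow_right one_le_two) (by
      rw [pow_one]; exact hcon)
    have h3 := Ideal.pow_right_strictAnti M hM0 hMmax.ne_top (show 1 < 2 by norm_num)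
    exact h3.ne h1
  have hI : Ideal.span {y} ⊔ M ^ 2 = M := by
    have h1 : M ^ (1 + 1) < Ideal.span {y} ⊔ M ^ 2 := by
      refine lt_of_le_of_ne le_sup_right fun h => hy2 ?_
      have h3 : y ∈ Ideal.span {y} ⊔ M ^ 2 := Ideal.mem_sup_left (Ideal.mem_span_singleton_self y)
      rw [← h] at h3
      exact h3
    have h3 : Ideal.span {y} ⊔ M ^ 2 ≤ M ^ 1 := by
      rw [pow_one, sup_le_iff, Ideal.span_singleton_le_iff_mem]
      exact ⟨hyM, Ideal.pow_le_self two_ne_zero⟩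
    have h4 := Ideal.eq_prime_pow_of_succ_lt_of_le hM0 h1 h3
    rw [h4, pow_one]
  obtain ⟨y', rfl⟩ := hμs y
  have hy' : y' ∈ JJ P b := by
    rw [← hcom]
    exact hyM
  -- representation of the elements of `JJ P b`
  have hrep : ∀ x ∈ JJ P b, ∃ c, ∃ j ∈ JJ P b ^ 2, x = c * y' + j := by
    intro x hx
    have h1 : μ x ∈ Ideal.span {μ y'} ⊔ M ^ 2 := by
      rw [hI, hM]
      exact Ideal.mem_map_of_mem μ hx
    obtain ⟨a, ha, j, hj, haj⟩ := Submodule.mem_sup.1 h1
    obtain ⟨c, rfl⟩ := Ideal.mem_span_singleton'.1 ha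
    obtain ⟨c', rfl⟩ := hμs c
    rw [hM, ← Ideal.map_pow] at hj
    obtain ⟨j', hj', rfl⟩ := (Ideal.mem_map_iff_of_surjective μ hμs).1 hj
    have h3 : μ (x - (c' * y' + j')) = 0 := by
      rw [map_sub, map_add, map_mul, haj, sub_self]
    rw [hμ, AdjoinRoot.mk_eq_zero] at h3
    obtain ⟨e, he⟩ := h3
    refine ⟨c', j' + f * e, Ideal.add_mem _ hj' (Ideal.mul_mem_right _ _ hf), ?_⟩
    rw [← he]
    ring
  obtain ⟨c₁, j₁, hj₁, h₁⟩ := hrep b (self_mem P b)
  obtain ⟨c₂, j₂, hj₂, h₂⟩ := hrep (C π) (C_mem P b hπ)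
  have h3 : c₂ * b + (-c₁) * C π ∈ JJ P b ^ 2 := by
    have h4 : c₂ * b + (-c₁) * C π = c₂ * j₁ - c₁ * j₂ := by
      conv_lhs => rw [h₁, h₂]
      ring
    rw [h4]
    exact Ideal.sub_mem _ (Ideal.mul_mem_left _ _ hj₁) (Ideal.mul_mem_left _ _ hj₂)
  obtain ⟨-, h4⟩ := indep P hbm hb hπ hπ2 h3
  have hc₁ : c₁ ∈ JJ P b := by
    rw [← neg_neg c₁]
    exact neg_mem h4
  have hb2 : b ∈ JJ P b ^ 2 := by
    rw [h₁]
    refine Ideal.add_mem _ ?_ (by rw [← h₁]; exact hj₁)
    rw [← h₁, pow_two]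
    exact Ideal.mul_mem_mul hc₁ hy'
  have h5 : (1 : O[X]) * b + 0 * C π ∈ JJ P b ^ 2 := by
    rw [one_mul, zero_mul, add_zero]
    exact hb2
  exact hmax.ne_top ((Ideal.eq_top_iff_one _).2 (indep P hbm hb hπ hπ2 h5).1)

end loc

section sqf

variable {F E : Type} [Field F] [Field E] [Algebra F E]

open scoped TensorProduct

/-- An irreducible polynomial is square-free over a separable extension. -/
theorem sqf_sep [Algebra.IsSeparable F E] [FiniteDimensional F E] {b : F[X]} (hb : Irreducible b)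
    {a : E[X]} (h : a * a ∣ b.map (algebraMap F E)) : IsUnit a := by
  haveI : Fact (Irreducible b) := ⟨hb⟩
  set q := b.map (algebraMap F E) with hq
  have hq0 : q ≠ 0 := (Polynomial.map_ne_zero_iff (algebraMap F E).injective).2 hb.ne_zero
  -- the ring `Q` over the field `AdjoinRoot b`
  let φ : AdjoinRoot b →+* AdjoinRoot q := AdjoinRoot.lift (algebraMap F (AdjoinRoot q))
    (AdjoinRoot.root q) (by
      have h1 := AdjoinRoot.eval₂_root q
      rw [hq, eval₂_map] at h1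
      exact h1)
  letI : Algebra (AdjoinRoot b) (AdjoinRoot q) := φ.toAlgebra
  haveI : IsScalarTower F (AdjoinRoot b) (AdjoinRoot q) := IsScalarTower.of_algebraMap_eq fun x => by
    show algebraMap F (AdjoinRoot q) x = φ (AdjoinRoot.of b x)
    exact (AdjoinRoot.lift_of _).symm
  let ψ : AdjoinRoot b ⊗[F] E →ₐ[AdjoinRoot b] AdjoinRoot q :=
    Algebra.TensorProduct.lift (Algebra.ofId (AdjoinRoot b) (AdjoinRoot q))
      (IsScalarTower.toAlgHom F E (AdjoinRoot q)) (fun _ _ => Commute.all _ _)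
  have hψ : Function.Surjective ψ := by
    intro x
    obtain ⟨P, rfl⟩ := AdjoinRoot.mk_surjective x
    induction P using Polynomial.induction_on' with
    | add P Q hP hQ =>
      obtain ⟨y, hy⟩ := hP
      obtain ⟨z, hz⟩ := hQ
      exact ⟨y + z, by rw [map_add, hy, hz, map_add]⟩
    | monomial n a =>
      refine ⟨((AdjoinRoot.root b) ^ n : AdjoinRoot b) ⊗ₜ[F] a, ?_⟩
      rw [Algebra.TensorProduct.lift_tmul]
      show φ (AdjoinRoot.root b ^ n) * algebraMap E (AdjoinRoot q) a = _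
      rw [map_pow]
      have h1 : φ (AdjoinRoot.root b) = AdjoinRoot.root q := AdjoinRoot.lift_root _
      rw [h1, ← C_mul_X_pow_eq_monomial, map_mul, map_pow, AdjoinRoot.mk_X, mul_comm]
      rfl
  haveI : Algebra.FormallyUnramified F E := Algebra.FormallyUnramified.of_isSeparable F E
  haveI : Algebra.FormallyUnramified (AdjoinRoot b) (AdjoinRoot b ⊗[F] E) := inferInstance
  haveI : Algebra.FormallyUnramified (AdjoinRoot b) (AdjoinRoot q) :=
    Algebra.FormallyUnramified.of_surjective ψ hψ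
  haveI : Module.Finite (AdjoinRoot b) (AdjoinRoot q) := Module.Finite.of_surjective ψ.toLinearMap hψ
  haveI : IsReduced (AdjoinRoot q) :=
    Algebra.FormallyUnramified.isReduced_of_field (AdjoinRoot b) (AdjoinRoot q)
  obtain ⟨c, hc⟩ := h
  have h1 : (AdjoinRoot.mk q (a * c)) ^ 2 = 0 := by
    rw [← map_pow, AdjoinRoot.mk_eq_zero]
    exact ⟨c, by rw [hc]; ring⟩
  have h3 : AdjoinRoot.mk q (a * c) = 0 := pow_eq_zero_iff (two_ne_zero) |>.1 h1
  rw [AdjoinRoot.mk_eq_zero, hc] at h3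
  obtain ⟨d, hd⟩ := h3
  have hac : a * c ≠ 0 := by
    intro h4
    apply hq0
    rw [hc, mul_assoc, h4, mul_zero]
  have h4 : (a * c) * 1 = (a * c) * (a * d) := by
    rw [mul_one]
    conv_lhs => rw [hd]
    ring
  have h5 := mul_left_cancel₀ hac h4
  exact IsUnit.of_mul_eq_one _ h5.symm

end sqf

end Pool.Agent.H89.GB
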