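import Pool.Agent.H89.GB.Desc

/-!
# Regularity over the tower
-/

set_option autoImplicit false
set_option linter.all false

open Polynomial IsDedekindDomain WithZero
open scoped Classical

namespace Pool.Agent.H89.GB

open Pool.Agent.Y228.SE (approx_poly mem_sq_of_dvd)
open Pool.Agent.Q45.GP (Regular)
open Pool.Agent.Q45.TT (reg_sep)
open Pool.Agent.H89.KT (IsKum)

section reg

variable {A F : Type} [CommRing A] [IsDedekindDomain A] [Field F] [Algebra A F]
  [IsFractionRing A F]

/-- Descent from the completion. -/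
theorem sq_desc (v : HeightOneSpectrum A) (f : A[X]) (a : (v.adicCompletionIntegers F)[X])
    (hmem : f.map (algebraMap A (v.adicCompletionIntegers F)) ∈
      (Ideal.span {a} ⊔ (IsLocalRing.maximalIdeal (v.adicCompletionIntegers F)).map C) ^ 2) :
    f ∈ (Ideal.comap (mapRingHom (algebraMap A (v.adicCompletionIntegers F)))
      (Ideal.span {a} ⊔ (IsLocalRing.maximalIdeal (v.adicCompletionIntegers F)).map C)) ^ 2 := by
  obtain ⟨π, hπ⟩ := v.intValuation_exists_uniformizer
  set φ : A[X] →+* (v.adicCompletionIntegers F)[X] :=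
    mapRingHom (algebraMap A (v.adicCompletionIntegers F)) with hφ
  set J : Ideal (v.adicCompletionIntegers F)[X] :=
    Ideal.span {a} ⊔ (IsLocalRing.maximalIdeal (v.adicCompletionIntegers F)).map C with hJ
  set J0 : Ideal A[X] := J.comap φ with hJ0
  have hvm : ∀ c ∈ v.asIdeal, algebraMap A (v.adicCompletionIntegers F) c ∈
      IsLocalRing.maximalIdeal (v.adicCompletionIntegers F) := by
    intro c hc
    rw [IsLocalRing.mem_maximalIdeal, mem_nonunits_iff,
      HeightOneSpectrum.adicCompletionIntegers.isUnit_iff_valued_eq_one]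
    change ¬ Valued.v ((algebraMap A F c : F) : v.adicCompletion F) = 1
    rw [HeightOneSpectrum.valuedAdicCompletion_eq_valuation']
    exact ((v.valuation_lt_one_iff_mem c).2 hc).ne
  have hπv : π ∈ v.asIdeal := by
    rw [← v.intValuation_lt_one_iff_mem, hπ, ← exp_zero]
    exact exp_lt_exp.2 (by norm_num)
  have hCJ : ∀ m ∈ IsLocalRing.maximalIdeal (v.adicCompletionIntegers F), C m ∈ J := fun m hm =>
    Ideal.mem_sup_right (Ideal.mem_map_of_mem C hm)
  have hCπ : C (algebraMap A (v.adicCompletionIntegers F) π ^ 2) ∈ J := by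
    refine hCJ _ ?_
    exact Ideal.pow_mem_of_mem _ (hvm π hπv) 2 (by norm_num)
  have hC0 : v.asIdeal.map C ≤ J0 := by
    rw [Ideal.map_le_iff_le_comap]
    intro c hc
    rw [Ideal.mem_comap, hJ0, Ideal.mem_comap]
    have : φ (C c) = C (algebraMap A (v.adicCompletionIntegers F) c) := by
      rw [hφ, coe_mapRingHom, map_C]
    rw [this]
    exact hCJ _ (hvm c hc)
  -- approximation of the elements of `J ^ 2`
  have key : ∀ w ∈ J ^ 2, ∃ w0 ∈ J0 ^ 2, ∃ h : (v.adicCompletionIntegers F)[X],
      w = φ w0 + C (algebraMap A (v.adicCompletionIntegers F) π ^ 2) * h := by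
    intro w hw
    rw [pow_two] at hw
    refine Submodule.mul_induction_on hw ?_ ?_
    · intro m hm n hn
      obtain ⟨m0, m1, hm1⟩ := approx_poly (F := F) v π hπ m
      obtain ⟨n0, n1, hn1⟩ := approx_poly (F := F) v π hπ n
      have hm0 : m0 ∈ J0 := by
        rw [hJ0, Ideal.mem_comap]
        have : φ m0 = m - C (algebraMap A (v.adicCompletionIntegers F) π ^ 2) * m1 := by
          rw [hm1]
          change _ = φ m0 + _ - _
          ring
        rw [this]
        exact Ideal.sub_mem _ hm (Ideal.mul_mem_right _ _ hCπ)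
      have hn0 : n0 ∈ J0 := by
        rw [hJ0, Ideal.mem_comap]
        have : φ n0 = n - C (algebraMap A (v.adicCompletionIntegers F) π ^ 2) * n1 := by
          rw [hn1]
          change _ = φ n0 + _ - _
          ring
        rw [this]
        exact Ideal.sub_mem _ hn (Ideal.mul_mem_right _ _ hCπ)
      refine ⟨m0 * n0, ?_, φ m0 * n1 + m1 * φ n0 +
        C (algebraMap A (v.adicCompletionIntegers F) π ^ 2) * m1 * n1, ?_⟩
      · rw [pow_two]
        exact Ideal.mul_mem_mul hm0 hn0
      · have e1 : m = φ m0 + C (algebraMap A (v.adicCompletionIntegers F) π ^ 2) * m1 := hm1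
        have e2 : n = φ n0 + C (algebraMap A (v.adicCompletionIntegers F) π ^ 2) * n1 := hn1
        rw [map_mul]
        conv_lhs => rw [e1, e2]
        ring
    · rintro x y ⟨x0, hx0, x1, hx⟩ ⟨y0, hy0, y1, hy⟩
      refine ⟨x0 + y0, Ideal.add_mem _ hx0 hy0, x1 + y1, ?_⟩
      rw [map_add]
      linear_combination hx + hy
  obtain ⟨w0, hw0, h, hw⟩ := key _ hmem
  have hfw : f - w0 ∈ J0 ^ 2 := by
    have h1 : φ (f - w0) = C (algebraMap A (v.adicCompletionIntegers F) π ^ 2) * h := by
      rw [map_sub]
      have : φ f = f.map (algebraMap A (v.adicCompletionIntegers F)) := rfl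
      rw [this, hw]
      ring
    have h2 : f - w0 ∈ (v.asIdeal ^ 2).map C := by
      rw [Ideal.mem_map_C_iff]
      intro n
      refine mem_sq_of_dvd (F := F) v π hπ _ (h.coeff n) ?_
      have h3 := congrArg (fun p => coeff p n) h1
      simp only [coeff_C_mul] at h3
      rw [← h3, hφ, coe_mapRingHom, coeff_map]
    rw [Ideal.map_pow] at h2
    exact Ideal.pow_right_mono hC0 2 h2
  have hfJ : f ∈ J0 ^ 2 := by
    have := Ideal.add_mem _ hfw hw0
    rwa [sub_add_cancel] at this
  exact hfJ

/-- The map to the residue field of the completion. -/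
noncomputable def rs (F : Type) [Field F] [Algebra A F] [IsFractionRing A F]
    (v : HeightOneSpectrum A) :
    A →+* IsLocalRing.ResidueField (v.adicCompletionIntegers F) :=
  (IsLocalRing.residue (v.adicCompletionIntegers F)).comp
    (algebraMap A (v.adicCompletionIntegers F))

theorem rs_zero (v : HeightOneSpectrum A) (x : A) : rs F v x = 0 ↔ x ∈ v.asIdeal := by
  show IsLocalRing.residue (v.adicCompletionIntegers F)
    (algebraMap A (v.adicCompletionIntegers F) x) = 0 ↔ _
  rw [IsLocalRing.residue_eq_zero_iff, IsLocalRing.mem_maximalIdeal, mem_nonunits_iff,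
    HeightOneSpectrum.adicCompletionIntegers.isUnit_iff_valued_eq_one]
  change ¬ Valued.v ((algebraMap A F x : F) : v.adicCompletion F) = 1 ↔ _
  rw [HeightOneSpectrum.valuedAdicCompletion_eq_valuation', ← v.valuation_lt_one_iff_mem (K := F)]
  constructor
  · intro h
    exact lt_of_le_of_ne (v.valuation_le_one x) h
  · intro h
    exact h.ne

theorem rs_surj (v : HeightOneSpectrum A) : Function.Surjective (rs F v) := by
  intro y
  obtain ⟨x, rfl⟩ := IsLocalRing.residue_surjective y
  obtain ⟨π, hπ⟩ := v.intValuation_exists_uniformizer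
  obtain ⟨g, h, hg⟩ := approx_poly (F := F) v π hπ (C x)
  have h1 := congrArg (fun q => coeff q 0) hg
  simp only [coeff_C_zero, coeff_add, coeff_map, mul_coeff_zero, coeff_C_zero] at h1
  refine ⟨g.coeff 0, ?_⟩
  have hπ0 : rs F v π = 0 := by
    rw [rs_zero, ← v.intValuation_lt_one_iff_mem, hπ, ← exp_zero]
    exact exp_lt_exp.2 (by norm_num)
  have h3 : IsLocalRing.residue (v.adicCompletionIntegers F)
      (algebraMap A (v.adicCompletionIntegers F) π) = 0 := hπ0
  rw [h1, map_add, map_mul, map_pow, h3, zero_pow two_ne_zero, zero_mul, add_zero]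
  rfl

/-- The residue ring is the residue field of the completion. -/
noncomputable def rsE (F : Type) [Field F] [Algebra A F] [IsFractionRing A F]
    (v : HeightOneSpectrum A) :
    (A ⧸ v.asIdeal) ≃+* IsLocalRing.ResidueField (v.adicCompletionIntegers F) :=
  (Ideal.quotEquivOfEq (show v.asIdeal = RingHom.ker (rs F v) from
    Ideal.ext fun x => (rs_zero v x).symm)).trans
    (RingHom.quotientKerEquivOfSurjective (rs_surj v))

theorem rsE_mk (v : HeightOneSpectrum A) (x : A) :
    rsE F v (Ideal.Quotient.mk v.asIdeal x) = rs F v x := rfl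

/-- Descent from the completion. -/
theorem sq_desc2 (v : HeightOneSpectrum A) (f : A[X]) {a : (v.adicCompletionIntegers F)[X]}
    (ha : a.Monic)
    (hirr : Irreducible (a.map (IsLocalRing.residue (v.adicCompletionIntegers F))))
    (hmem : f.map (algebraMap A (v.adicCompletionIntegers F)) ∈
      (Ideal.span {a} ⊔ (IsLocalRing.maximalIdeal (v.adicCompletionIntegers F)).map C) ^ 2) :
    ∃ b : A[X], b.Monic ∧ Irreducible (b.map (Ideal.Quotient.mk v.asIdeal)) ∧ f ∈ JJ v b ^ 2 := by
  have hlift : a.map (IsLocalRing.residue (v.adicCompletionIntegers F)) ∈ lifts (rs F v) := by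
    rw [mem_lifts]
    exact Polynomial.map_surjective _ (rs_surj v) _
  obtain ⟨b, hbmap, -, hbm⟩ := lifts_and_degree_eq_and_monic hlift (ha.map _)
  have hmm : ∀ x : A[X], x.map (rs F v) =
      (mapEquiv (rsE F v)) (x.map (Ideal.Quotient.mk v.asIdeal)) := by
    intro x
    show _ = (x.map (Ideal.Quotient.mk v.asIdeal)).map ((rsE F v).toRingHom)
    rw [Polynomial.map_map]
    congr 1
  refine ⟨b, hbm, ?_, Ideal.pow_right_mono ?_ 2 (sq_desc v f a hmem)⟩
  · rw [← hbmap, hmm, MulEquiv.irreducible_iff] at hirr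
    exact hirr
  · intro x hx
    rw [Ideal.mem_comap] at hx
    rw [mem_JJ]
    obtain ⟨y, hy, z, hz, hyz⟩ := Submodule.mem_sup.1 hx
    obtain ⟨c, rfl⟩ := Ideal.mem_span_singleton.1 hy
    have h1 : z.map (IsLocalRing.residue (v.adicCompletionIntegers F)) = 0 := by
      refine Polynomial.ext fun n => ?_
      rw [coeff_map, coeff_zero, IsLocalRing.residue_eq_zero_iff]
      exact Ideal.mem_map_C_iff.1 hz n
    have h3 : x.map (rs F v) = a.map (IsLocalRing.residue (v.adicCompletionIntegers F)) *
        c.map (IsLocalRing.residue (v.adicCompletionIntegers F)) := by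
      have h4 : x.map (rs F v) = (mapRingHom (algebraMap A (v.adicCompletionIntegers F)) x).map
          (IsLocalRing.residue (v.adicCompletionIntegers F)) := by
        rw [coe_mapRingHom, Polynomial.map_map]
        rfl
      rw [h4, ← hyz, Polynomial.map_add, Polynomial.map_mul, h1, add_zero]
    have h5 : b.map (rs F v) ∣ x.map (rs F v) := by
      rw [hbmap, h3]
      exact ⟨_, rfl⟩
    rw [hmm, hmm] at h5
    exact (map_dvd_iff (mapEquiv (rsE F v))).1 h5

end reg

section reg2

variable {O : Type} [CommRing O] [IsDedekindDomain O] {f : O[X]} {p : ℕ}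

variable {F : Type} [Field F] {A : Type} [CommRing A] [IsDedekindDomain A]
  [Algebra O A] [Algebra A F] [IsFractionRing A F] [Module.Finite O A]
  [Module.IsTorsionFree O A] [Algebra.IsIntegral O A]

/-- **Regularity.** -/
theorem regular_of (H : Base p O) (hfm : f.Monic) [IsDedekindDomain (AdjoinRoot f)]
    (hpow : ∀ v : HeightOneSpectrum A, ∃ j : ℕ, v.asIdeal.inertiaDeg O = p ^ j)
    (hsep : Ram f A) : Regular F (fK f A) := by
  intro v a ha hirr
  obtain ⟨P, hP⟩ : ∃ P, P = v.under O := ⟨_, rfl⟩
  haveI : P.asIdeal.IsMaximal := P.isMaximal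
  haveI : v.asIdeal.IsMaximal := v.isMaximal
  haveI hlo : v.asIdeal.LiesOver P.asIdeal := by rw [hP]; exact ⟨rfl⟩
  by_cases hunr : P.asIdeal.map (algebraMap O A) ≤ v.asIdeal ^ 2
  · obtain ⟨-, hs⟩ := hsep P v hunr
    refine reg_sep v _ ?_ a ha hirr
    have hker : ∀ x ∈ P.asIdeal, ((rs F v).comp (algebraMap O A)) x = 0 := by
      intro x hx
      show rs F v (algebraMap O A x) = 0
      rw [rs_zero]
      exact Ideal.pow_le_self two_ne_zero (hunr (Ideal.mem_map_of_mem _ hx))
    have h3 : (fK f A).map ((IsLocalRing.residue (v.adicCompletionIntegers F)).comp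
      (algebraMap A (v.adicCompletionIntegers F))) = (f.map (Ideal.Quotient.mk P.asIdeal)).map
        (Ideal.Quotient.lift P.asIdeal ((rs F v).comp (algebraMap O A)) hker) := by
      unfold fK
      rw [Polynomial.map_map, Polynomial.map_map]
      congr 1
    rw [h3]
    exact hs.map
  · intro hmem
    obtain ⟨b, hbm, hb, hfb⟩ := sq_desc2 v (fK f A) ha hirr hmem
    obtain ⟨j, hj⟩ := hpow v
    rw [Ideal.inertiaDeg_eq_of_isMaximal P.asIdeal v.asIdeal] at hj
    have hfin : Module.Finite (O ⧸ P.asIdeal) (A ⧸ v.asIdeal) := inferInstance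
    have hun : ∀ π ∈ P.asIdeal, π ∉ P.asIdeal ^ 2 → algebraMap O A π ∉ v.asIdeal ^ 2 := by
      intro π hπ hπ2 h
      obtain ⟨I, hI⟩ : P.asIdeal ∣ Ideal.span {π} := by
        rw [Ideal.dvd_span_singleton]
        exact hπ
      obtain ⟨σ, hσI, hσP⟩ : ∃ σ ∈ I, σ ∉ P.asIdeal := by
        by_contra hcon
        push Not at hcon
        apply hπ2
        have h1 : P.asIdeal ^ 2 ∣ Ideal.span {π} := by
          rw [hI, pow_two]
          exact mul_dvd_mul_left _ (Ideal.dvd_iff_le.2 hcon)
        rwa [Ideal.dvd_span_singleton] at h1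
      have h1 : v.asIdeal ^ 2 ∣ P.asIdeal.map (algebraMap O A) * I.map (algebraMap O A) := by
        rw [← Ideal.map_mul, ← hI, Ideal.map_span, Set.image_singleton, Ideal.dvd_span_singleton]
        exact h
      have h3 : ¬ v.asIdeal ∣ I.map (algebraMap O A) := by
        intro h4
        have h5 := Ideal.dvd_iff_le.1 h4 (Ideal.mem_map_of_mem _ hσI)
        apply hσP
        have h6 : P.asIdeal = v.asIdeal.under O := hlo.over
        rw [h6]
        exact h5
      exact hunr (Ideal.dvd_iff_le.1 (v.prime.pow_dvd_of_dvd_mul_right 2 h3 h1))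
    obtain ⟨b', hbm', hb', hfb'⟩ := desc P v H.prime H.unit hj hun hfm hbm hb hfb
    exact nmem_sq hfm P hbm' hb' hfb'

end reg2

end Pool.Agent.H89.GB
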