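import Pool.Agent.H89.KT.Evn

/-!
# Towers of Kummer extensions of the field of fractions of a Dedekind domain
-/

set_option autoImplicit false
set_option linter.all false

open Polynomial IsDedekindDomain WithZero
open scoped Classical

namespace Pool.Agent.H89.GB

open Pool.Agent.H89.KT (IsKum)
open Pool.Agent.Q45.TT (mem_closure_sub)

/-- The field `E` is a finite separable extension of the field of fractions of `O`. -/
def FS (O : Type) [CommRing O] [IsDedekindDomain O] (E : Type) [Field E] [Algebra O E] : Prop :=
  ∃ (_ : Algebra (FractionRing O) E), IsScalarTower O (FractionRing O) E ∧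
    FiniteDimensional (FractionRing O) E ∧ Algebra.IsSeparable (FractionRing O) E

section fs

variable {O : Type} [CommRing O] [IsDedekindDomain O]

theorem FS.base {K : Type} [Field K] [Algebra O K] (h : IsFractionRing O K) : FS O K := by
  let e := FractionRing.algEquiv O K
  letI : Algebra (FractionRing O) K := (e : FractionRing O →+* K).toAlgebra
  have hs : Function.Surjective (algebraMap (FractionRing O) K) := e.surjective
  refine ⟨inferInstance, IsScalarTower.of_algebraMap_eq fun p => (e.commutes p).symm, ?_, ?_⟩
  · exact Module.Finite.of_surjective (Algebra.linearMap (FractionRing O) K) hs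
  · refine ⟨fun x => ?_⟩
    obtain ⟨y, rfl⟩ := hs x
    exact isSeparable_algebraMap y

theorem FS.trans {K L : Type} [Field K] [Field L] [Algebra O K] [Algebra O L] [Algebra K L]
    [IsScalarTower O K L] (h : FS O K) (hf : FiniteDimensional K L)
    (hs : Algebra.IsSeparable K L) : FS O L := by
  obtain ⟨i, i1, i2, i3⟩ := h
  letI : Algebra (FractionRing O) L := ((algebraMap K L).comp (algebraMap _ K)).toAlgebra
  haveI : IsScalarTower (FractionRing O) K L := IsScalarTower.of_algebraMap_eq fun _ => rfl
  refine ⟨inferInstance, IsScalarTower.of_algebraMap_eq fun p => ?_, ?_, ?_⟩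
  · show algebraMap O L p = algebraMap K L (algebraMap (FractionRing O) K
      (algebraMap O (FractionRing O) p))
    rw [← IsScalarTower.algebraMap_apply O (FractionRing O) K,
      ← IsScalarTower.algebraMap_apply O K L]
  · exact Module.Finite.trans K L
  · exact Algebra.IsSeparable.trans (FractionRing O) K L

section ring

variable {E B : Type} [Field E] [Algebra O E] [CommRing B] [Algebra O B] [Algebra B E]
  [IsScalarTower O B E] [IsIntegralClosure B O E]

theorem FS.inj (h : FS O E) : Function.Injective (algebraMap O E) := by
  obtain ⟨i, i1, i2, i3⟩ := h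
  rw [IsScalarTower.algebraMap_eq O (FractionRing O) E]
  exact (algebraMap (FractionRing O) E).injective.comp (IsFractionRing.injective O _)

theorem FS.finite (h : FS O E) (B : Type) [CommRing B] [Algebra O B] [Algebra B E]
    [IsScalarTower O B E] [IsIntegralClosure B O E] : Module.Finite O B := by
  obtain ⟨i, i1, i2, i3⟩ := h
  exact IsIntegralClosure.finite O (FractionRing O) E B

theorem FS.frac (h : FS O E) (B : Type) [CommRing B] [Algebra O B] [Algebra B E]
    [IsScalarTower O B E] [IsIntegralClosure B O E] : IsFractionRing B E := by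
  obtain ⟨i, i1, i2, i3⟩ := h
  haveI : IsDomain B := (IsIntegralClosure.algebraMap_injective B O E).isDomain (algebraMap B E)
  exact IsIntegralClosure.isFractionRing_of_finite_extension O (FractionRing O) E B

theorem FS.ded (h : FS O E) (B : Type) [CommRing B] [Algebra O B] [Algebra B E]
    [IsScalarTower O B E] [IsIntegralClosure B O E] : IsDedekindDomain B := by
  obtain ⟨i, i1, i2, i3⟩ := h
  haveI : IsDomain B := (IsIntegralClosure.algebraMap_injective B O E).isDomain (algebraMap B E)
  exact IsIntegralClosure.isDedekindDomain O (FractionRing O) E B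

theorem FS.injB (h : FS O E) (B : Type) [CommRing B] [Algebra O B] [Algebra B E]
    [IsScalarTower O B E] : Function.Injective (algebraMap O B) := by
  intro p q hpq
  apply h.inj
  rw [IsScalarTower.algebraMap_apply O B E, hpq, ← IsScalarTower.algebraMap_apply]

end ring

/-- The rings of integers in an extension. -/
theorem exists_alg {K' K : Type} [Field K'] [Field K] [Algebra O K'] [Algebra O K]
    [Algebra K' K] [IsScalarTower O K' K] (A' A : Type) [CommRing A'] [CommRing A]
    [Algebra O A'] [Algebra O A] [Algebra A' K'] [Algebra A K] [IsScalarTower O A' K']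
    [IsScalarTower O A K] [IsIntegralClosure A' O K'] [IsIntegralClosure A O K] :
    ∃ φ : A' →+* A, (∀ a, algebraMap A K (φ a) = algebraMap K' K (algebraMap A' K' a)) ∧
      ∀ p, φ (algebraMap O A' p) = algebraMap O A p := by
  haveI := IsIntegralClosure.isIntegral_algebra O (A := A') K'
  letI : Algebra A' K := ((algebraMap K' K).comp (algebraMap A' K')).toAlgebra
  haveI : IsScalarTower O A' K := IsScalarTower.of_algebraMap_eq fun p => by
    show algebraMap O K p = algebraMap K' K (algebraMap A' K' (algebraMap O A' p))
    rw [← IsScalarTower.algebraMap_apply O A' K', ← IsScalarTower.algebraMap_apply O K' K]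
  refine ⟨(IsIntegralClosure.lift O A K (S := A')).toRingHom, fun a => ?_, fun p => ?_⟩
  · exact IsIntegralClosure.algebraMap_lift O A K a
  · exact (IsIntegralClosure.lift O A K (S := A')).commutes p

/-- The integral closure. -/
theorem exists_ic (E : Type) [Field E] [Algebra O E] :
    ∃ (B : Type) (_ : CommRing B) (_ : Algebra O B) (_ : Algebra B E),
      IsScalarTower O B E ∧ IsIntegralClosure B O E :=
  ⟨integralClosure O E, inferInstance, inferInstance, inferInstance, inferInstance,
    inferInstance⟩

end fs

section tower

/-- The prime number `p` is invertible in the ring `O`, which contains the `p`-th roots of unity. -/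
structure Base (p : ℕ) (O : Type) [CommRing O] [IsDedekindDomain O] : Prop where
  prime : p.Prime
  unit : IsUnit (p : O)
  zeta : ∃ ζ : O, IsPrimitiveRoot ζ p

/-- The field `K` is generated over the fractions of `O` by successive `p`-th roots `s 0, …, s (m - 1)`. -/
structure IsTower (p : ℕ) (O : Type) [CommRing O] [IsDedekindDomain O] (K : Type) [Field K] [Algebra O K] (m : ℕ)
    (s : ℕ → K) : Prop where
  inj : Function.Injective (algebraMap O K)
  pw : ∀ i < m, s i ^ p ∈ Subfield.closure (Set.range (algebraMap O K) ∪ s '' {j | j < i})
  gen : Subfield.closure (Set.range (algebraMap O K) ∪ s '' {j | j < m}) = ⊤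

variable {O : Type} [CommRing O] [IsDedekindDomain O] {p : ℕ}

theorem frac_of_gen {K : Type} [Field K] [Algebra O K]
    (hinj : Function.Injective (algebraMap O K))
    (hgen : Subfield.closure (Set.range (algebraMap O K)) = ⊤) : IsFractionRing O K := by
  let ψ : FractionRing O →+* K := IsFractionRing.lift hinj
  have hψ : ∀ a, ψ (algebraMap O (FractionRing O) a) = algebraMap O K a := fun a =>
    IsFractionRing.lift_algebraMap hinj a
  have hsurj : Function.Surjective ψ := by
    have h5 : (⊤ : Subfield K) ≤ ψ.fieldRange := by
      rw [← hgen, Subfield.closure_le]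
      rintro x ⟨p, rfl⟩
      exact ⟨algebraMap O _ p, hψ p⟩
    intro x
    exact h5 (Subfield.mem_top x)
  let e : FractionRing O ≃ₐ[O] K :=
    AlgEquiv.ofBijective ({ ψ with commutes' := fun a => hψ a } : FractionRing O →ₐ[O] K)
      ⟨ψ.injective, hsurj⟩
  exact IsLocalization.isLocalization_of_algEquiv (nonZeroDivisors O) e

/-- The induction principle for towers of Kummer extensions. -/
theorem IsTower.ind (H : Base p O) {M : ∀ (K : Type) [Field K] [Algebra O K], Prop}
    (base : ∀ (K : Type) [Field K] [Algebra O K], IsFractionRing O K → M K)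
    (step : ∀ (K' K : Type) [Field K'] [Field K] [Algebra O K'] [Algebra O K] [Algebra K' K]
      [IsScalarTower O K' K] (D : K') (s : K), IsKum p D s →
      Function.Injective (algebraMap O K') → (∃ m s', IsTower p O K' m s') → M K' → M K) :
    ∀ (m : ℕ) (K : Type) [Field K] [Algebra O K] (s : ℕ → K), IsTower p O K m s → M K := by
  intro m
  induction m with
  | zero =>
    intro K _ _ s h
    refine base K (frac_of_gen h.inj ?_)
    have h1 := h.gen
    have h3 : s '' {j | j < 0} = ∅ := by simp
    rw [h3, Set.union_empty] at h1
    exact h1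
  | succ m ih =>
    intro K _ _ s h
    set S := Subfield.closure (Set.range (algebraMap O K) ∪ s '' {j | j < m}) with hS
    have hpS : ∀ p, algebraMap O K p ∈ S := fun p => Subfield.subset_closure (Or.inl ⟨p, rfl⟩)
    have hsS : ∀ j < m, s j ∈ S := fun j hj => Subfield.subset_closure (Or.inr ⟨j, hj, rfl⟩)
    by_cases hm : s m ∈ S
    · refine ih K s ⟨h.inj, fun i hi => h.pw i (by omega), ?_⟩
      rw [eq_top_iff, ← h.gen, Subfield.closure_le]
      rintro x (⟨p, rfl⟩ | ⟨j, hj, rfl⟩)
      · exact hpS p
      · rcases Nat.lt_succ_iff_lt_or_eq.1 hj with h3 | rfl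
        · exact hsS j h3
        · exact hm
    · letI : Algebra O S := ((algebraMap O K).codRestrict S hpS).toAlgebra
      haveI : IsScalarTower O S K := IsScalarTower.of_algebraMap_eq fun p => rfl
      let s' : ℕ → S := fun j => if hj : s j ∈ S then ⟨s j, hj⟩ else 0
      have hs' : ∀ j < m, (s' j : K) = s j := by
        intro j hj
        show ((if hj : s j ∈ S then (⟨s j, hj⟩ : S) else 0 : S) : K) = s j
        rw [dif_pos (hsS j hj)]
      have himg : ∀ i ≤ m, S.subtype '' (Set.range (algebraMap O S) ∪ s' '' {j | j < i}) =
          Set.range (algebraMap O K) ∪ s '' {j | j < i} := by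
        intro i hi
        rw [Set.image_union]
        congr 1
        · rw [← Set.range_comp]
          rfl
        · ext x
          constructor
          · rintro ⟨_, ⟨j, hj, rfl⟩, rfl⟩
            exact ⟨j, hj, (hs' j (lt_of_lt_of_le hj hi)).symm⟩
          · rintro ⟨j, hj, rfl⟩
            exact ⟨s' j, ⟨j, hj, rfl⟩, hs' j (lt_of_lt_of_le hj hi)⟩
      have htw : IsTower p O S m s' := by
        refine ⟨fun p q hpq => h.inj (congrArg S.subtype hpq), fun i hi => ?_, ?_⟩
        · apply mem_closure_sub
          rw [himg i hi.le]
          show (s' i : K) ^ p ∈ _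
          rw [hs' i hi]
          exact h.pw i (by omega)
        · rw [eq_top_iff]
          rintro x -
          apply mem_closure_sub
          rw [himg m le_rfl]
          exact x.2
      have hD : s m ^ p ∈ S := h.pw m (by omega)
      have h2S : (p : S) ≠ 0 := by
        have h3 := H.unit.map (algebraMap O S)
        rw [map_natCast] at h3
        exact h3.ne_zero
      have hζS : ∃ ζ : S, IsPrimitiveRoot ζ p := by
        obtain ⟨ζ, hζ⟩ := H.zeta
        exact ⟨_, hζ.map_of_injective htw.inj⟩
      refine step S K ⟨s m ^ p, hD⟩ (s m) ⟨H.prime, h2S, hζS, rfl, fun x hx => hm ?_, ?_⟩ htw.inj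
        ⟨m, s', htw⟩ (ih S s' htw)
      · rw [← hx]
        exact x.2
      · rw [eq_top_iff]
        rintro x -
        have h3 : (⊤ : Subfield K) ≤ (IntermediateField.adjoin S {s m}).toSubfield := by
          rw [← h.gen, Subfield.closure_le]
          rintro x (⟨p, rfl⟩ | ⟨j, hj, rfl⟩)
          · exact IntermediateField.algebraMap_mem _ (algebraMap O S p)
          · rcases Nat.lt_succ_iff_lt_or_eq.1 hj with h3 | rfl
            · exact IntermediateField.algebraMap_mem _ (⟨s j, hsS j h3⟩ : S)
            · exact IntermediateField.mem_adjoin_simple_self S _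
        exact h3 (Subfield.mem_top x)

theorem IsTower.fs (H : Base p O) {K : Type} [Field K] [Algebra O K] {m : ℕ} {s : ℕ → K}
    (h : IsTower p O K m s) : FS O K := by
  refine IsTower.ind H (M := fun K _ _ => FS O K) (fun K _ _ hK => FS.base hK) ?_ m K s h
  intro K' K _ _ _ _ _ _ D s hq _ _ ih
  exact ih.trans hq.fin hq.separable

end tower

end Pool.Agent.H89.GB
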