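import Pool.Agent.H89.GB.Pow

/-!
# Elements with valuations divisible by `p` whose norm is a `p`-th power
-/

set_option autoImplicit false
set_option linter.all false

open Polynomial IsDedekindDomain WithZero
open scoped Classical

namespace Pool.Agent.H89.GB

open Pool.Agent.H89.KT (IsKum irr_cop inertia_prime kum_up gal_comp norm_gal root_of pw_hom pw_down
  pw_inert ram_of cyc)
open Pool.Agent.Y160.SE (IsPw)
open Pool.Agent.Q45.TT (inertia_le exists_above tf_of inert_of val_under)

section sub

variable {O : Type} [CommRing O] [IsDedekindDomain O]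

theorem exists_sub {K' L : Type} [Field K'] [Field L] [Algebra O K'] [Algebra O L]
    [Algebra K' L] [IsScalarTower O K' L] (θ : L) :
    ∃ (L' : Type) (_ : Field L') (_ : Algebra O L') (_ : Algebra K' L') (_ : Algebra L' L)
      (θ' : L'), IsScalarTower O K' L' ∧ IsScalarTower K' L' L ∧ IsScalarTower O L' L ∧
      algebraMap L' L θ' = θ ∧ IntermediateField.adjoin K' {θ'} = ⊤ := by
  let L' := IntermediateField.adjoin K' {θ}
  letI iA : Algebra O L' := ((algebraMap K' L').comp (algebraMap O K')).toAlgebra
  refine ⟨L', inferInstance, iA, inferInstance, inferInstance,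
    IntermediateField.AdjoinSimple.gen K' θ, ?_, inferInstance, ?_, rfl, ?_⟩
  · exact IsScalarTower.of_algebraMap_eq fun _ => rfl
  · exact IsScalarTower.of_algebraMap_eq fun p => by
      show algebraMap O L p = algebraMap K' L (algebraMap O K' p)
      rw [← IsScalarTower.algebraMap_apply]
  · rw [eq_top_iff]
    rintro x -
    have h1 := IntermediateField.adjoin_map K' {IntermediateField.AdjoinSimple.gen K' θ} L'.val
    rw [Set.image_singleton] at h1
    have h3 : (x : L) ∈ IntermediateField.adjoin K' {L'.val (IntermediateField.AdjoinSimple.gen K' θ)} :=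
      x.2
    rw [← h1, IntermediateField.mem_map] at h3
    obtain ⟨y, hy, hyx⟩ := h3
    have h4 : y = x := Subtype.ext hyx
    rwa [← h4]

end sub

/-- The automorphism of the ring of integers. -/
theorem exists_aut {O : Type} [CommRing O] [IsDedekindDomain O] {L : Type} [Field L] [Algebra O L] (R : Type)
    [CommRing R] [Algebra O R] [Algebra R L] [IsScalarTower O R L] [IsIntegralClosure R O L]
    (γ : L ≃+* L) (hγ : ∀ a : O, γ (algebraMap O L a) = algebraMap O L a) :
    ∃ φ : R ≃+* R, ∀ r, γ (algebraMap R L r) = algebraMap R L (φ r) := by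
  let γ' : L ≃ₐ[O] L := AlgEquiv.ofRingEquiv (f := γ) hγ
  have hinj := IsIntegralClosure.algebraMap_injective R O L
  haveI := IsIntegralClosure.isIntegral_algebra O (A := R) L
  have hex : ∀ (δ : L ≃ₐ[O] L) (r : R), ∃ r' : R, algebraMap R L r' = δ (algebraMap R L r) := by
    intro δ r
    apply (IsIntegralClosure.isIntegral_iff (A := R) (R := O)).1
    exact (IsIntegralClosure.isIntegral O L r).algebraMap.map δ.toAlgHom
  choose F hF using hex
  refine ⟨{ toFun := F γ'
            invFun := F γ'.symm
            left_inv := fun r => hinj (by rw [hF, hF, AlgEquiv.symm_apply_apply])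
            right_inv := fun r => hinj (by rw [hF, hF, AlgEquiv.apply_symm_apply])
            map_mul' := fun a b => hinj (by rw [hF, map_mul, map_mul, map_mul, hF, hF])
            map_add' := fun a b => hinj (by rw [hF, map_add, map_add, map_add, hF, hF]) },
    fun r => (hF γ' r).symm⟩

/-- Elements of `K(θ)`, `f(θ) = 0`, with valuations divisible by `p` and with norm a `p`-th power
are `p`-th powers. -/
def Triv (p : ℕ) {O : Type} [CommRing O] [IsDedekindDomain O] (f : O[X]) (K : Type) [Field K] [Algebra O K] : Prop :=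
  ∀ (L : Type) [Field L] [Algebra O L] [Algebra K L] [IsScalarTower O K L] (θ : L),
    aeval θ (fK f K) = 0 → IntermediateField.adjoin K {θ} = ⊤ →
    ∀ (R : Type) [CommRing R] [IsDedekindDomain R] [Algebra O R] [Algebra R L]
      [IsScalarTower O R L] [IsFractionRing R L] [IsIntegralClosure R O L] (z : L),
      z ≠ 0 → (∀ w : HeightOneSpectrum R, IsPw p (w.valuation L z)) →
      (∃ u : K, Algebra.norm K z = u ^ p) → ∃ c : L, z = c ^ p

/-- The condition on the ramification: if a prime of `A` is ramified over the prime `P` of `O`, then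
the polynomial `f` is irreducible and separable modulo `P`. -/
def Ram {O : Type} [CommRing O] [IsDedekindDomain O] (f : O[X]) (A : Type) [CommRing A]
    [IsDedekindDomain A] [Algebra O A] : Prop :=
  ∀ (P : HeightOneSpectrum O) (v : HeightOneSpectrum A),
    P.asIdeal.map (algebraMap O A) ≤ v.asIdeal ^ 2 →
    Irreducible (f.map (Ideal.Quotient.mk P.asIdeal)) ∧
      (f.map (Ideal.Quotient.mk P.asIdeal)).Separable

/-- The ramification condition for the ring of integers. -/
def RamK {O : Type} [CommRing O] [IsDedekindDomain O] (f : O[X]) (K : Type) [Field K] [Algebra O K] : Prop :=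
  ∀ (A : Type) [CommRing A] [IsDedekindDomain A] [Algebra O A] [Algebra A K]
    [IsScalarTower O A K] [IsIntegralClosure A O K], Ram f A

section rama

variable {O : Type} [CommRing O] [IsDedekindDomain O]

theorem Ram.down {f : O[X]} {A' A : Type} [CommRing A'] [IsDedekindDomain A'] [CommRing A]
    [IsDedekindDomain A] [Algebra O A'] [Algebra O A] [Algebra A' A] [IsScalarTower O A' A]
    [Algebra.IsIntegral A' A] [Module.IsTorsionFree A' A] (h : Ram f A) : Ram f A' := by
  intro P v hPv
  obtain ⟨w, hw⟩ := exists_above (B := A) v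
  refine h P w ?_
  have h1 : v.asIdeal.map (algebraMap A' A) ≤ w.asIdeal := by
    rw [Ideal.map_le_iff_le_comap, ← hw]
    exact le_rfl
  have h3 := Ideal.map_mono (f := algebraMap A' A) hPv
  rw [Ideal.map_pow, Ideal.map_map, ← IsScalarTower.algebraMap_eq] at h3
  exact h3.trans (Ideal.pow_right_mono h1 2)

theorem RamK.down {f : O[X]} {K' K : Type} [Field K'] [Field K] [Algebra O K']
    [Algebra O K] [Algebra K' K] [IsScalarTower O K' K] (h : RamK f K) (hfs' : FS O K')
    (hfs : FS O K) : RamK f K' := by
  intro A' _ _ _ _ _ _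
  obtain ⟨A, a1, a2, a3, a4, a5⟩ := exists_ic (O := O) K
  obtain ⟨φ, hφ1, hφ2⟩ := exists_alg (O := O) (K' := K') (K := K) A' A
  letI : Algebra A' A := φ.toAlgebra
  haveI : IsScalarTower O A' A := IsScalarTower.of_algebraMap_eq fun p => (hφ2 p).symm
  haveI := hfs.ded A
  haveI := hfs.finite A
  haveI := hfs'.ded A'
  haveI := hfs'.frac A'
  haveI : Module.Finite A' A := Module.Finite.of_restrictScalars_finite O A' A
  haveI : Algebra.IsIntegral A' A := Algebra.IsIntegral.of_finite A' A
  haveI : Module.IsTorsionFree A' A := by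
    rw [Module.isTorsionFree_iff_algebraMap_injective]
    exact tf_of (K' := K') (K := K) (IsFractionRing.injective A' K') hφ1
  exact (h A).down

/-- The condition does not depend on the choice of the ring of integers. -/
theorem RamK.of {f : O[X]} {K : Type} [Field K] [Algebra O K] (hfs : FS O K) {A : Type}
    [CommRing A] [IsDedekindDomain A] [Algebra O A] [Algebra A K] [IsScalarTower O A K] [IsIntegralClosure A O K]
    (h : Ram f A) : RamK f K := by
  intro A' _ _ _ _ _ _
  obtain ⟨φ, hφ1, hφ2⟩ := exists_alg (O := O) (K' := K) (K := K) A' A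
  letI : Algebra A' A := φ.toAlgebra
  haveI : IsScalarTower O A' A := IsScalarTower.of_algebraMap_eq fun p => (hφ2 p).symm
  haveI := hfs.ded A
  haveI := hfs.finite A
  haveI := hfs.ded A'
  haveI := hfs.frac A'
  haveI : Module.Finite A' A := Module.Finite.of_restrictScalars_finite O A' A
  haveI : Algebra.IsIntegral A' A := Algebra.IsIntegral.of_finite A' A
  haveI : Module.IsTorsionFree A' A := by
    rw [Module.isTorsionFree_iff_algebraMap_injective]
    exact tf_of (K' := K) (K := K) (IsFractionRing.injective A' K) hφ1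
  exact h.down

end rama

section step

variable {O : Type} [CommRing O] [IsDedekindDomain O] {f : O[X]} {p : ℕ}

/-- The valuations of the element of the smaller field are divisible by `p`. -/
theorem pw_all (H : Base p O) (hf : Pol p f)
    {K' K L' L : Type} [Field K'] [Field K] [Field L'] [Field L]
    [Algebra O K'] [Algebra O K] [Algebra O L'] [Algebra O L]
    [Algebra K' K] [Algebra K' L'] [Algebra K L] [Algebra L' L] [Algebra K' L]
    [IsScalarTower K' K L] [IsScalarTower K' L' L] [IsScalarTower O K' K]
    [IsScalarTower O K' L'] [IsScalarTower O L' L] [IsScalarTower O K L]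
    {D : K'} {s : K} (hq : IsKum p D s) {θ' : L'} (hθ' : aeval θ' (fK f K') = 0)
    (htop' : IntermediateField.adjoin K' {θ'} = ⊤)
    (htop : IntermediateField.adjoin K {algebraMap L' L θ'} = ⊤)
    (hirr' : Irreducible (fK f K')) (hirr : Irreducible (fK f K)) {m' : ℕ} {s' : ℕ → K'}
    (htw : IsTower p O K' m' s') (hfsL' : FS O L') (hfsL : FS O L) (hram : RamK f K)
    {R' R : Type} [CommRing R'] [CommRing R] [IsDedekindDomain R'] [IsDedekindDomain R]
    [Algebra O R'] [Algebra O R] [Algebra R' L'] [Algebra R L] [IsScalarTower O R' L']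
    [IsScalarTower O R L] [IsIntegralClosure R' O L'] [IsIntegralClosure R O L]
    [IsFractionRing R' L'] [IsFractionRing R L]
    {x : L'} (hx0 : x ≠ 0) {y : K'} (hy : Algebra.norm K' x = y ^ p)
    (hev : ∀ w : HeightOneSpectrum R, IsPw p (w.valuation L (algebraMap L' L x)))
    (q : HeightOneSpectrum R') : IsPw p (q.valuation L' x) := by
  have hm' : (fK f K').Monic := fK_monic hf _
  have hqL : IsKum p (algebraMap K' L' D) (algebraMap K L s) := by
    refine kum_up hq htop' htop hm' ?_ hirr' ?_ hθ'
    · exact fK_pos hf K'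
    · rwa [fK_alg]
  -- the rings
  obtain ⟨φR, hφR1, hφR2⟩ := exists_alg (O := O) (K' := L') (K := L) R' R
  letI : Algebra R' R := φR.toAlgebra
  haveI : IsScalarTower O R' R := IsScalarTower.of_algebraMap_eq fun p => (hφR2 p).symm
  haveI := hfsL.finite R
  haveI := hfsL'.finite R'
  haveI : Module.Finite R' R := Module.Finite.of_restrictScalars_finite O R' R
  haveI : Algebra.IsIntegral R' R := Algebra.IsIntegral.of_finite R' R
  haveI : Module.IsTorsionFree R' R := by
    rw [Module.isTorsionFree_iff_algebraMap_injective]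
    exact tf_of (K' := L') (K := L) (IsFractionRing.injective R' L') hφR1
  letI : Algebra R' L := ((algebraMap L' L).comp (algebraMap R' L')).toAlgebra
  haveI : IsScalarTower R' L' L := IsScalarTower.of_algebraMap_eq fun _ => rfl
  haveI : IsScalarTower R' R L := IsScalarTower.of_algebraMap_eq fun a => (hφR1 a).symm
  by_cases hD : IsPw p (q.valuation L' (algebraMap K' L' D))
  · refine pw_down (B := R) hqL ?_ q hD hev
    have h3 := H.unit.map (algebraMap O R')
    rwa [map_natCast] at h3
  · -- the rings of integers of `K'` and `K`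
    have hfs' : FS O K' := htw.fs H
    have hfs : FS O K := hfs'.trans hq.fin hq.separable
    obtain ⟨A', a1, a2, a3, a4, a5⟩ := exists_ic (O := O) K'
    obtain ⟨A, b1, b2, b3, b4, b5⟩ := exists_ic (O := O) K
    obtain ⟨φ, hφ1, hφ2⟩ := exists_alg (O := O) (K' := K') (K := K) A' A
    obtain ⟨ψ, hψ1, hψ2⟩ := exists_alg (O := O) (K' := K') (K := L') A' R'
    letI : Algebra A' A := φ.toAlgebra
    letI : Algebra A' R' := ψ.toAlgebra
    haveI : IsScalarTower O A' A := IsScalarTower.of_algebraMap_eq fun p => (hφ2 p).symm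
    haveI : IsScalarTower O A' R' := IsScalarTower.of_algebraMap_eq fun p => (hψ2 p).symm
    haveI := hfs.ded A
    haveI := hfs.frac A
    haveI := hfs.finite A
    haveI := hfs'.ded A'
    haveI := hfs'.frac A'
    haveI := hfs'.finite A'
    haveI : Module.Finite A' A := Module.Finite.of_restrictScalars_finite O A' A
    haveI : Module.Finite A' R' := Module.Finite.of_restrictScalars_finite O A' R'
    haveI : Algebra.IsIntegral A' A := Algebra.IsIntegral.of_finite A' A
    haveI : Algebra.IsIntegral A' R' := Algebra.IsIntegral.of_finite A' R'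
    haveI : Algebra.IsIntegral O A' := Algebra.IsIntegral.of_finite O A'
    haveI : Module.IsTorsionFree A' A := by
      rw [Module.isTorsionFree_iff_algebraMap_injective]
      exact tf_of (K' := K') (K := K) (IsFractionRing.injective A' K') hφ1
    haveI : Module.IsTorsionFree A' R' := by
      rw [Module.isTorsionFree_iff_algebraMap_injective]
      exact tf_of (K' := K') (K := L') (IsFractionRing.injective A' K') hψ1
    haveI : Module.IsTorsionFree O R' := by
      rw [Module.isTorsionFree_iff_algebraMap_injective]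
      exact hfsL'.injB R'
    letI : Algebra A' K := ((algebraMap K' K).comp (algebraMap A' K')).toAlgebra
    haveI : IsScalarTower A' K' K := IsScalarTower.of_algebraMap_eq fun _ => rfl
    haveI : IsScalarTower A' A K := IsScalarTower.of_algebraMap_eq fun a => (hφ1 a).symm
    letI : Algebra A' L' := ((algebraMap K' L').comp (algebraMap A' K')).toAlgebra
    haveI : IsScalarTower A' K' L' := IsScalarTower.of_algebraMap_eq fun _ => rfl
    haveI : IsScalarTower A' R' L' := IsScalarTower.of_algebraMap_eq fun a => (hψ1 a).symm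
    set P := q.under A' with hP
    have hDp : ¬ IsPw p (P.valuation K' D) := by
      rintro ⟨δ, hδ⟩
      apply hD
      rw [val_under (A := A'), ← hP, hδ]
      exact ⟨δ ^ P.asIdeal.ramificationIdx' q.asIdeal, by rw [← pow_mul, ← pow_mul, mul_comm]⟩
    obtain ⟨V, hV⟩ := exists_above (B := A) P
    have h1 : P.asIdeal.map (algebraMap A' A) ≤ V.asIdeal ^ 2 := by
      rw [← hV] at hDp ⊢
      exact ram_of (K := K') (L := K) hq V hDp
    haveI : Module.IsTorsionFree O A' := by
      rw [Module.isTorsionFree_iff_algebraMap_injective]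
      exact hfs'.injB A'
    haveI : Algebra.IsIntegral O R' := Algebra.IsIntegral.of_finite O R'
    have hPu : P.under O = q.under O := by
      apply HeightOneSpectrum.ext
      show Ideal.comap (algebraMap O A') (Ideal.comap (algebraMap A' R') q.asIdeal) =
        Ideal.comap (algebraMap O R') q.asIdeal
      rw [Ideal.comap_comap, ← IsScalarTower.algebraMap_eq]
    have hbV : (q.under O).asIdeal.map (algebraMap O A) ≤ V.asIdeal ^ 2 := by
      refine le_trans ?_ h1
      rw [IsScalarTower.algebraMap_eq O A' A, ← Ideal.map_map]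
      refine Ideal.map_mono ?_
      rw [Ideal.map_le_iff_le_comap, ← hPu]
      exact le_rfl
    obtain ⟨hbi, -⟩ := hram A (q.under O) V hbV
    -- the root
    obtain ⟨θR, hθR⟩ : ∃ θR : R', algebraMap R' L' θR = θ' := by
      apply (IsIntegralClosure.isIntegral_iff (A := R') (R := O)).1
      refine ⟨f, hf.monic, ?_⟩
      have h3 := hθ'
      unfold fK at h3
      rwa [aeval_map_algebraMap, aeval_def] at h3
    have hθR2 : eval₂ (algebraMap O R') θR f = 0 := by
      apply IsFractionRing.injective R' L'
      rw [hom_eval₂, hθR, map_zero, ← IsScalarTower.algebraMap_eq]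
      have h3 := hθ'
      unfold fK at h3
      rwa [aeval_map_algebraMap, aeval_def] at h3
    have hfr : Module.finrank K' L' = f.natDegree := by
      rw [Pool.Agent.Q45.TW.finrank_of hirr' hm' hθ' htop', fK_natDegree hf]
    have hn : Module.finrank A' R' = f.natDegree := by
      rw [← IsFractionRing.finrank_eq A' K' R' L', hfr]
    obtain ⟨j, hj⟩ := htw.pow H A' P
    have hmap := inert_q q θR hθR2 hbi hf hn hj
    haveI : FiniteDimensional K' L' := Pool.Agent.Q45.TW.fin_of hm' hθ' htop'
    exact pw_inert H.prime.ne_zero P q hmap (by rw [hfr]; exact hf.cop) hx0 hy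

/-- **The inductive step.** -/
theorem Triv.step (H : Base p O) (hf : Pol p f)
    {K' K : Type} [Field K'] [Field K] [Algebra O K'] [Algebra O K]
    [Algebra K' K] [IsScalarTower O K' K] {D : K'} {s : K} (hq : IsKum p D s) {m' : ℕ}
    {s' : ℕ → K'} (htw : IsTower p O K' m' s') (hram : RamK f K) (ih : Triv p f K') :
    Triv p f K := by
  intro L _ _ _ _ θ hθ htop R _ _ _ _ _ _ _ z hz hev hu
  have hp := H.prime
  have hirr' : Irreducible (fK f K') := IsTower.irr H hf htw
  haveI := hq.fin
  have hirr : Irreducible (fK f K) := irr_step hf hq hirr'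
  have hsep' : (fK f K').Separable := hf.sep_of htw.inj hirr'
  have hsep : (fK f K).Separable := by
    rw [← fK_alg (K' := K') (K := K)]
    exact hsep'.map
  have hm' : (fK f K').Monic := fK_monic hf _
  have hm : (fK f K).Monic := fK_monic hf _
  letI : Algebra K' L := ((algebraMap K L).comp (algebraMap K' K)).toAlgebra
  haveI : IsScalarTower K' K L := IsScalarTower.of_algebraMap_eq fun _ => rfl
  haveI : IsScalarTower O K' L := IsScalarTower.of_algebraMap_eq fun p => by
    show algebraMap O L p = algebraMap K L (algebraMap K' K (algebraMap O K' p))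
    rw [← IsScalarTower.algebraMap_apply O K' K, ← IsScalarTower.algebraMap_apply O K L]
  obtain ⟨L', l1, l2, l3, l4, θ', l5, l6, l7, rfl, htop'⟩ := exists_sub (O := O) (K' := K') θ
  have hθ' : aeval θ' (fK f K') = 0 := by
    apply (algebraMap L' L).injective
    rw [← aeval_algebraMap_apply, ← aeval_map_algebraMap K, fK_alg, hθ, map_zero]
  have hfs' : FS O K' := htw.fs H
  have hfs : FS O K := hfs'.trans hq.fin hq.separable
  haveI : FiniteDimensional K' L' := Pool.Agent.Q45.TW.fin_of hm' hθ' htop'
  haveI : FiniteDimensional K L := Pool.Agent.Q45.TW.fin_of hm hθ htop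
  have hfsL' : FS O L' := hfs'.trans (Pool.Agent.Q45.TW.fin_of hm' hθ' htop')
    (Pool.Agent.Q45.TW.sep_of hsep' hθ' htop')
  have hfsL : FS O L := hfs.trans (Pool.Agent.Q45.TW.fin_of hm hθ htop)
    (Pool.Agent.Q45.TW.sep_of hsep hθ htop)
  have hqL : IsKum p (algebraMap K' L' D) (algebraMap K L s) := by
    refine kum_up hq htop' htop hm' ?_ hirr' ?_ hθ'
    · exact fK_pos hf K'
    · rwa [fK_alg]
  haveI := hqL.fin
  obtain ⟨R', r1, r2, r3, r4, r5⟩ := exists_ic (O := O) L'
  haveI := hfsL'.ded R'
  haveI := hfsL'.frac R'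
  -- the automorphisms
  obtain ⟨ζ, hζ⟩ := hq.zeta
  obtain ⟨γ, hγ, hγ2⟩ := hqL.exists_gen (hζ.map_of_injective (algebraMap K' L').injective)
  obtain ⟨γ₀, hγ₀, -⟩ := hq.exists_gen hζ
  have hcomp := gal_comp hq hγ₀ hγ
  obtain ⟨φ, hφ⟩ := exists_aut (O := O) R (γ : L ≃+* L) (fun a => by
    show γ (algebraMap O L a) = algebraMap O L a
    rw [IsScalarTower.algebraMap_apply O L' L, γ.commutes])
  have hγp : (γ : L ≃+* L) ^ p = 1 := by
    have h1 : γ ^ p = 1 := by
      rw [← hqL.card]
      exact pow_card_eq_one'
    have h3 : ∀ n : ℕ, ∀ x : L, ((γ : L ≃+* L) ^ n) x = (γ ^ n) x := by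
      intro n
      induction n with
      | zero => intro x; rfl
      | succ n ih =>
        intro x
        rw [pow_succ, pow_succ]
        show ((γ : L ≃+* L) ^ n) (γ x) = (γ ^ n) (γ x)
        exact ih _
    refine RingEquiv.ext fun x => ?_
    rw [h3, h1]
    rfl
  refine cyc hp (γ : L ≃+* L) hγp (fun z => (∀ w : HeightOneSpectrum R, IsPw p (w.valuation L z)) ∧
    ∃ u : K, Algebra.norm K z = u ^ p) ?_ ?_ hz ⟨hev, hu⟩
  · rintro z hz ⟨hev, u, hu⟩
    have hγz : γ z ≠ 0 := (_root_.map_ne_zero γ).2 hz
    refine ⟨fun w => ?_, γ₀ u / u, ?_⟩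
    · have h1 := pw_hom φ (γ : L ≃+* L) hφ hev w
      obtain ⟨δ, hδ⟩ := h1
      obtain ⟨ε, hε⟩ := hev w
      refine ⟨δ / ε, ?_⟩
      rw [map_div₀, hδ, hε, div_pow]
    · show Algebra.norm K (γ z / z) = _
      have hnz : Algebra.norm K z ≠ 0 := (Algebra.norm_ne_zero_iff).2 hz
      have h5 : Algebra.norm K (γ z / z) = Algebra.norm K (γ z) / Algebra.norm K z :=
        eq_div_of_mul_eq hnz (by rw [← map_mul, div_mul_cancel₀ _ hz])
      rw [h5, norm_gal hcomp, hu, map_pow, div_pow]
  · rintro z hz ⟨hev, u, hu⟩ ⟨w, hw, hzw⟩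
    obtain ⟨z', v, c, hz', hv, hc, hzv⟩ := fixed_class hf hq hθ' htop' htop hirr' hirr hsep' hζ hγ
      hγ2 hz hu hw hzw
    have hev' : ∀ Q : HeightOneSpectrum R, IsPw p (Q.valuation L (algebraMap L' L z')) := by
      intro Q
      have h1 := hev Q
      rw [hzv, map_mul, map_pow] at h1
      exact IsPw.of_mul ((Valuation.ne_zero_iff _).2 hv) h1
    obtain ⟨c₁, hc₁⟩ := ih L' θ' hθ' htop' R' z' hz' (fun q => pw_all H hf hq hθ' htop' htop
      hirr' hirr htw hfsL' hfsL hram hz' hc hev' q) ⟨c, hc⟩
    exact ⟨algebraMap L' L c₁ * v, by rw [hzv, hc₁, map_pow, mul_pow]⟩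

end step

end Pool.Agent.H89.GB
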